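import Pool.Agent.Helper4.SP.Exp

/-!
The additive energy of `c₀ + κ ⌊f(n)⌋`, `n` in `(M, 2 M]`, uniformly in the smooth phase `f`.
-/

set_option autoImplicit false

namespace Pool.Agent.Helper4.SP

open Finset
open Pool.Agent.H469R2.NK (e norm_e e_add conj_e Cq Cq_pos)
open Pool.Agent.TH212.EH (En)
open Pool.Agent.Helper3K9.PS (SF DD count_le)

/-- the constant in the bound for the exponential sums -/
noncomputable def CL (k : ℕ) (L : ℝ) : ℝ := Cq k * (4 * L + 2 * L * (4 * L) ^ k)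

/-- the constant in the bound for the energy -/
noncomputable def CE (k P : ℕ) (L : ℝ) : ℝ :=
  8 * (1 + CL k L ^ P * (2 ^ P * ((12 * ((2 ^ (k - 1) * P : ℕ) : ℝ)) ^ P * 2 + 2)))

lemma CL_pos {k : ℕ} {L : ℝ} (hL : 1 ≤ L) : 0 < CL k L := by
  unfold CL
  have := Cq_pos k
  have : 0 < L := by linarith
  positivity

/-- the energy -/
theorem energy {k : ℕ} (hk : 1 ≤ k) {δ L F : ℝ} (hδ0 : 0 < δ) (hδ1 : δ ≤ 1) (hL : 1 ≤ L) {P : ℕ} (hP2 : 2 ≤ P)
    (hPδ : (k : ℝ) + 1 ≤ δ * P) {M : ℕ} (hM2 : 2 ≤ M) (hML : 4 * L ≤ (M : ℝ) ^ δ) (hF1 : 1 ≤ F)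
    (hF : F * (M : ℝ) ^ (k * δ) ≤ (M : ℝ) ^ (k + 1)) {φ : ℕ → ℝ → ℝ} (h : Smooth k L F M φ) (κ c₀ : ℤ)
    (hκ : κ ≠ 0) :
    (En (2 ^ (k - 1) * P) (fun j : Fin M => c₀ + κ * ⌊φ 0 ((M : ℝ) + 1 + ((j : ℕ) : ℝ))⌋) : ℝ) * F ≤
      CE k P L * (1 + Real.log M) ^ (k * P) * (M : ℝ) ^ (2 * (2 ^ (k - 1) * P)) := by
  classical
  have hF0 : 0 < F := by linarith
  obtain ⟨k', hk'⟩ : ∃ k', k = k' + 1 := ⟨k - 1, by omega⟩
  obtain ⟨p, hp⟩ : ∃ p, p = 2 ^ (k - 1) * P := ⟨_, rfl⟩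
  have h2p : 2 * p = 2 ^ k * P := by
    rw [hp, hk', Nat.add_sub_cancel, pow_succ]; ring
  have hp1 : 1 ≤ p := by
    rw [hp]
    exact Nat.one_le_iff_ne_zero.2 (by positivity)
  have hpR : (1 : ℝ) ≤ p := by exact_mod_cast hp1
  have hp0 : (0 : ℝ) < p := by linarith
  unfold CE
  rw [← hp]
  obtain ⟨C, hCdef⟩ : ∃ C : ℝ, C = CL k L := ⟨_, rfl⟩
  have hC : 0 < C := by rw [hCdef]; exact CL_pos hL
  rw [← hCdef]
  have hM1 : 1 ≤ M := by omega
  have hMR : (1 : ℝ) ≤ M := by exact_mod_cast hM1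
  have hM0 : (0 : ℝ) < M := by linarith
  have hlogM : 0 ≤ Real.log M := Real.log_nonneg hMR
  obtain ⟨J, hJ⟩ : ∃ J : ℕ, J = ⌈F⌉₊ := ⟨_, rfl⟩
  have hJ1 : F ≤ J := by rw [hJ]; exact Nat.le_ceil _
  have hJ2 : (J : ℝ) ≤ 2 * F := by
    have := Nat.ceil_lt_add_one hF0.le
    rw [← hJ] at this
    linarith
  have hJ0 : (0 : ℝ) < J := by linarith
  have hJn : 1 ≤ J := by exact_mod_cast (by linarith : (1 : ℝ) ≤ J)
  obtain ⟨d, hd⟩ : ∃ d : ℝ, d = 1 / (6 * (p * J)) := ⟨_, rfl⟩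
  have hd0 : 0 < d := by rw [hd]; positivity
  obtain ⟨f, hf⟩ : ∃ f : Fin M → ℝ, f = (fun j : Fin M => φ 0 ((M : ℝ) + 1 + ((j : ℕ) : ℝ))) := ⟨_, rfl⟩
  have hSF : ∀ t, SF f t = SG (φ 0) M t := by
    intro t
    unfold SF SG
    rw [hf, ← Fin.sum_univ_eq_sum_range (fun n => e (t * φ 0 ((M : ℝ) + 1 + (n : ℝ)))) M]
  have hFinv : (M : ℝ) ^ (-(δ * P)) ≤ F⁻¹ := by
    rw [Real.rpow_neg hM0.le]
    apply inv_anti₀ hF0
    calc F = F * 1 := (mul_one F).symm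
      _ ≤ F * (M : ℝ) ^ (k * δ) := by
          apply mul_le_mul_of_nonneg_left _ hF0.le
          exact Real.one_le_rpow hMR (by positivity)
      _ ≤ (M : ℝ) ^ (k + 1) := hF
      _ = (M : ℝ) ^ ((k : ℝ) + 1) := by
          rw [← Real.rpow_natCast]; push_cast; rfl
      _ ≤ _ := Real.rpow_le_rpow_of_exponent_le hMR hPδ
  -- the set of solutions
  obtain ⟨A, hA⟩ : ∃ A : Finset ((Fin p → Fin M) × (Fin p → Fin M)),
      A = univ.filter (fun q => ∑ j, (c₀ + κ * ⌊f (q.1 j)⌋) = ∑ j, (c₀ + κ * ⌊f (q.2 j)⌋)) := ⟨_, rfl⟩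
  have hEn : En p (fun j : Fin M => c₀ + κ * ⌊φ 0 ((M : ℝ) + 1 + ((j : ℕ) : ℝ))⌋) = A.card := by
    unfold En
    rw [Nat.card_eq_fintype_card, Fintype.card_subtype, hA, hf]
  have hAD : ∀ q ∈ A, |DD f q| ≤ p := by
    intro q hq
    rw [hA, mem_filter] at hq
    have h1 := hq.2
    rw [sum_add_distrib, sum_add_distrib, ← mul_sum, ← mul_sum] at h1
    have h2 := mul_left_cancel₀ hκ (add_left_cancel h1)
    have h3 : ∑ j, (⌊f (q.1 j)⌋ : ℝ) = ∑ j, (⌊f (q.2 j)⌋ : ℝ) := by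
      exact_mod_cast h2
    have h4 : DD f q = ∑ j, Int.fract (f (q.1 j)) - ∑ j, Int.fract (f (q.2 j)) := by
      unfold DD
      have e1 : ∀ x : Fin p → Fin M, ∑ i, f (x i) = ∑ i, (⌊f (x i)⌋ : ℝ) + ∑ i, Int.fract (f (x i)) := by
        intro x
        rw [← sum_add_distrib]
        exact sum_congr rfl fun i _ => (Int.floor_add_fract _).symm
      rw [e1, e1, h3]
      ring
    have h5 : ∀ x : Fin p → Fin M, 0 ≤ ∑ j, Int.fract (f (x j)) ∧ ∑ j, Int.fract (f (x j)) ≤ p := by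
      intro x
      refine ⟨sum_nonneg fun _ _ => Int.fract_nonneg _, ?_⟩
      calc ∑ j, Int.fract (f (x j)) ≤ ∑ _j : Fin p, (1 : ℝ) := sum_le_sum fun _ _ => (Int.fract_lt_one _).le
        _ = p := by simp
    obtain ⟨a1, a2⟩ := h5 q.1
    obtain ⟨a3, a4⟩ := h5 q.2
    rw [h4, abs_le]
    constructor <;> linarith
  have hcount := count_le (p := p) f J hJn d hd0 (by
    rw [hd]
    apply le_of_eq
    field_simp) A hAD
  -- the terms
  have hterm : ∀ i ∈ Ioo 0 J, ‖SF f ((i : ℝ) * d)‖ ^ (2 * p) ≤ (M : ℝ) ^ (2 * p) * (C ^ P * (1 + Real.log M) ^ (k * P) *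
      (2 ^ P * ((12 * (p : ℝ)) ^ P * ((i : ℝ) ^ 2)⁻¹ + F⁻¹))) := by
    intro i hi
    rw [mem_Ioo] at hi
    have hi0 : (0 : ℝ) < i := by exact_mod_cast hi.1
    have hi1 : (1 : ℝ) ≤ i := by exact_mod_cast hi.1
    have hiJ : (i : ℝ) ≤ J := by exact_mod_cast hi.2.le
    have hθ1 : (i : ℝ) * d ≤ 1 := by
      rw [hd, mul_one_div, div_le_one (by positivity)]
      nlinarith
    have h1 := bound hk hδ0 hδ1 hL hM2 hML hF0 hF h (θ := i * d) (by positivity) hθ1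
    have h1' : (‖SG (φ 0) M (i * d)‖ / M) ^ (2 ^ k) ≤
        C * (1 + Real.log M) ^ k * (1 / (i * d * F) + (M : ℝ) ^ (-δ)) := by
      rw [hCdef]; exact h1
    have h2 : 1 / ((i : ℝ) * d * F) ≤ 12 * p / i := by
      have e1 : (i : ℝ) / (12 * p) ≤ i * d * F := by
        rw [hd, div_le_iff₀ (by positivity)]
        have e2 : (i : ℝ) * (1 / (6 * (p * J))) * F * (12 * p) = i * (2 * F / J) := by
          field_simp
          ring
        rw [e2]
        apply le_mul_of_one_le_right hi0.le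
        rw [le_div_iff₀ hJ0]
        linarith
      calc 1 / ((i : ℝ) * d * F) ≤ 1 / ((i : ℝ) / (12 * p)) := one_div_le_one_div_of_le (by positivity) e1
        _ = _ := by field_simp
    have h3 : ‖SF f ((i : ℝ) * d)‖ ^ (2 * p) = (M : ℝ) ^ (2 * p) * ((‖SG (φ 0) M (i * d)‖ / M) ^ (2 ^ k)) ^ P := by
      rw [hSF, ← pow_mul, ← h2p, div_pow]
      field_simp
    rw [h3]
    apply mul_le_mul_of_nonneg_left _ (by positivity)
    calc ((‖SG (φ 0) M (i * d)‖ / M) ^ (2 ^ k)) ^ P ≤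
          (C * (1 + Real.log M) ^ k * (12 * p / i + (M : ℝ) ^ (-δ))) ^ P := by
            apply pow_le_pow_left₀ (by positivity)
            refine h1'.trans ?_
            gcongr
      _ = C ^ P * (1 + Real.log M) ^ (k * P) * (12 * p / i + (M : ℝ) ^ (-δ)) ^ P := by
            rw [mul_pow, mul_pow, ← pow_mul]
      _ ≤ C ^ P * (1 + Real.log M) ^ (k * P) * (2 ^ P * ((12 * (p : ℝ)) ^ P * ((i : ℝ) ^ 2)⁻¹ + F⁻¹)) := by
            apply mul_le_mul_of_nonneg_left _ (by positivity)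
            refine (add_pow_le (by positivity) (by positivity) P).trans ?_
            apply mul_le_mul _ _ (by positivity) (by positivity)
            · exact pow_le_pow_right₀ (by norm_num) (by omega)
            · apply add_le_add
              · rw [div_pow, div_eq_mul_inv]
                apply mul_le_mul_of_nonneg_left _ (by positivity)
                apply inv_anti₀ (by positivity)
                exact pow_le_pow_right₀ hi1 hP2
              · rw [← Real.rpow_natCast, ← Real.rpow_mul hM0.le]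
                refine le_trans (le_of_eq ?_) hFinv
                congr 1
                ring
  have hsum : ∑ i ∈ range J, ‖SF f ((i : ℝ) * d)‖ ^ (2 * p) ≤
      (M : ℝ) ^ (2 * p) * ((1 + C ^ P * (2 ^ P * ((12 * (p : ℝ)) ^ P * 2 + 2))) * (1 + Real.log M) ^ (k * P)) := by
    have e1 : range J = insert 0 (Ioo 0 J) := by
      ext i
      rw [mem_range, mem_insert, mem_Ioo]
      omega
    rw [e1, sum_insert (by simp)]
    have h0 : ‖SF f (((0 : ℕ) : ℝ) * d)‖ ^ (2 * p) ≤ (M : ℝ) ^ (2 * p) := by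
      apply pow_le_pow_left₀ (norm_nonneg _)
      unfold SF
      refine (norm_sum_le _ _).trans ?_
      simp only [norm_e, sum_const, card_univ, Fintype.card_fin, nsmul_eq_mul, mul_one]
      exact le_rfl
    have h1 : ∑ i ∈ Ioo 0 J, ‖SF f ((i : ℝ) * d)‖ ^ (2 * p) ≤ (M : ℝ) ^ (2 * p) * (C ^ P * (1 + Real.log M) ^ (k * P) *
      (2 ^ P * ((12 * (p : ℝ)) ^ P * 2 + 2))) := by
      refine (sum_le_sum hterm).trans ?_
      rw [← mul_sum, ← mul_sum, ← mul_sum, sum_add_distrib, ← mul_sum, sum_const, nsmul_eq_mul]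
      have a1 : ∑ i ∈ Ioo 0 J, ((i : ℝ) ^ 2)⁻¹ ≤ 2 := by
        have := sum_Ioo_inv_sq_le (α := ℝ) 0 J
        simpa using this
      have a2 : ((Ioo 0 J).card : ℝ) * F⁻¹ ≤ 2 := by
        rw [← div_eq_mul_inv, div_le_iff₀ (by positivity)]
        have a3 : ((Ioo 0 J).card : ℝ) ≤ J := by
          rw [Nat.card_Ioo]
          exact_mod_cast (by omega : J - 0 - 1 ≤ J)
        linarith
      gcongr
    have hL1 : 1 ≤ (1 + Real.log M) ^ (k * P) := one_le_pow₀ (by linarith)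
    calc _ ≤ (M : ℝ) ^ (2 * p) * 1 + (M : ℝ) ^ (2 * p) * (C ^ P * (1 + Real.log M) ^ (k * P) *
          (2 ^ P * ((12 * (p : ℝ)) ^ P * 2 + 2))) := by linarith
      _ ≤ (M : ℝ) ^ (2 * p) * (1 + Real.log M) ^ (k * P) + (M : ℝ) ^ (2 * p) * (C ^ P * (1 + Real.log M) ^ (k * P) *
          (2 ^ P * ((12 * (p : ℝ)) ^ P * 2 + 2))) := by gcongr
      _ = _ := by ring
  rw [hEn]
  calc (A.card : ℝ) * F ≤ (8 / J * ∑ i ∈ range J, ‖SF f (i * d)‖ ^ (2 * p)) * J := by gcongr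
    _ = 8 * ∑ i ∈ range J, ‖SF f (i * d)‖ ^ (2 * p) := by rw [mul_right_comm, div_mul_cancel₀ _ hJ0.ne']
    _ ≤ 8 * ((M : ℝ) ^ (2 * p) * ((1 + C ^ P * (2 ^ P * ((12 * (p : ℝ)) ^ P * 2 + 2))) * (1 + Real.log M) ^ (k * P))) := by
        gcongr
    _ = _ := by ring

end Pool.Agent.Helper4.SP
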