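import Pool.Agent.Helper3K9.PS.Energy

/-!
Exponential sums with an arbitrary smooth phase `θ f(n)` over `(M, 2 M]`, uniformly for `0 < θ ≤ 1` and uniformly in
`f`; only the derivatives of order `k + 1` and `k + 2` matter.
-/

set_option autoImplicit false

namespace Pool.Agent.Helper4.SP

open Finset
open Pool.Agent.H469R2.NK (e norm_e e_add conj_e vdcH Av Av_le Cq Cq_pos iterate harm_le)
open Pool.Agent.TH915.PW
open Pool.Agent.Helper3K9.PS

/-- the exponential sum over `(M, 2 M]` -/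
noncomputable def SG (f : ℝ → ℝ) (M : ℕ) (θ : ℝ) : ℂ := ∑ n ∈ range M, e (θ * f ((M : ℝ) + 1 + n))

/-- the bound for phases with `φ (k + 1) > 0`, `φ (k + 2) ≤ 0` -/
theorem bound_pos {k : ℕ} (hk : 1 ≤ k) {δ L F : ℝ} (hδ0 : 0 < δ) (hδ1 : δ ≤ 1) (hL : 1 ≤ L) {M : ℕ}
    (hM2 : 2 ≤ M) (hML : 4 * L ≤ (M : ℝ) ^ δ) (hF0 : 0 < F)
    (hF : F * (M : ℝ) ^ (k * δ) ≤ (M : ℝ) ^ (k + 1)) {φ : ℕ → ℝ → ℝ}
    (h : Hy k (M : ℝ) (2 * M + 1) (F / (L * (M : ℝ) ^ (k + 1))) (L * F / (M : ℝ) ^ (k + 1)) φ)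
    {θ : ℝ} (hθ : 0 < θ) (hθ1 : θ ≤ 1) :
    (‖SG (φ 0) M θ‖ / M) ^ (2 ^ k) ≤
      Cq k * (4 * L + 2 * L * (4 * L) ^ k) * (1 + Real.log M) ^ k * (1 / (θ * F) + (M : ℝ) ^ (-δ)) := by
  have hkR : (1 : ℝ) ≤ k := by exact_mod_cast hk
  have hkpos : (0 : ℝ) < k := by linarith
  have hL0 : 0 < L := by linarith
  obtain ⟨κ, hκ⟩ : ∃ κ : ℝ, κ = 1 / (2 * L) := ⟨_, rfl⟩
  have hκ0 : 0 < κ := by rw [hκ]; positivity
  have hκ1 : κ ≤ 1 := by
    rw [hκ, div_le_one (by positivity)]; linarith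
  have hκg : 2 * (L * κ ^ k) ≤ 1 := by
    have h1 : κ ^ k ≤ κ := by
      calc κ ^ k ≤ κ ^ 1 := pow_le_pow_of_le_one hκ0.le hκ1 hk
        _ = κ := pow_one _
    calc 2 * (L * κ ^ k) ≤ 2 * (L * κ) := by gcongr
      _ = 1 := by rw [hκ]; field_simp
  have h2κ : 2 / κ = 4 * L := by rw [hκ]; field_simp; ring
  have hMR : (2 : ℝ) ≤ M := by exact_mod_cast hM2
  have hMpos : (0 : ℝ) < M := by linarith
  have hM1 : (1 : ℝ) ≤ M := by linarith
  have hlogM : 0 ≤ Real.log M := Real.log_nonneg hM1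
  -- the parameter `h`
  obtain ⟨T, hT⟩ : ∃ T : ℝ, T = θ * F := ⟨_, rfl⟩
  have hT0 : 0 < T := by rw [hT]; positivity
  have hTc : T ≤ F := by
    rw [hT]; exact mul_le_of_le_one_left hF0.le hθ1
  have key : ∃ h : ℝ, (M : ℝ) ^ δ ≤ h ∧ h ≤ M ∧ T * h ^ k ≤ (M : ℝ) ^ (k + 1) ∧
      1 / h ≤ 1 / T + (M : ℝ) ^ (-δ) ∧ (M : ℝ) ^ k / (T * h ^ k) ≤ 1 / T + (M : ℝ) ^ (-δ) := by
    rcases le_total T M with hTM | hTM
    · refine ⟨M, ?_, le_rfl, ?_, ?_, ?_⟩
      · calc (M : ℝ) ^ δ ≤ (M : ℝ) ^ (1 : ℝ) := Real.rpow_le_rpow_of_exponent_le hM1 hδ1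
          _ = M := Real.rpow_one _
      · rw [pow_succ]
        nlinarith [pow_pos hMpos k]
      · have h1 : 1 / (M : ℝ) ≤ 1 / T := one_div_le_one_div_of_le hT0 hTM
        have h2 : 0 ≤ (M : ℝ) ^ (-δ) := by positivity
        linarith
      · have h1 : (M : ℝ) ^ k / (T * (M : ℝ) ^ k) = 1 / T := by
          field_simp
        rw [h1]
        have h2 : 0 ≤ (M : ℝ) ^ (-δ) := by positivity
        linarith
    · obtain ⟨h, hh⟩ : ∃ h : ℝ, h = ((M : ℝ) ^ (k + 1) / T) ^ ((1 : ℝ) / k) := ⟨_, rfl⟩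
      have hbase : 0 < (M : ℝ) ^ (k + 1) / T := by positivity
      have hhk : h ^ k = (M : ℝ) ^ (k + 1) / T := by
        rw [hh, ← Real.rpow_natCast, ← Real.rpow_mul hbase.le]
        rw [one_div_mul_cancel hkpos.ne', Real.rpow_one]
      have hh0 : 0 < h := by rw [hh]; positivity
      have hlow : (M : ℝ) ^ δ ≤ h := by
        have h1 : (M : ℝ) ^ ((k : ℝ) * δ) ≤ (M : ℝ) ^ (k + 1) / T := by
          rw [le_div_iff₀ hT0]
          calc (M : ℝ) ^ ((k : ℝ) * δ) * T ≤ (M : ℝ) ^ ((k : ℝ) * δ) * F := by gcongr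
            _ ≤ _ := by rw [mul_comm]; exact hF
        rw [hh]
        calc (M : ℝ) ^ δ = ((M : ℝ) ^ ((k : ℝ) * δ)) ^ ((1 : ℝ) / k) := by
              rw [← Real.rpow_mul hMpos.le]
              congr 1
              field_simp
          _ ≤ _ := Real.rpow_le_rpow (by positivity) h1 (by positivity)
      have hinv : 1 / h ≤ (M : ℝ) ^ (-δ) := by
        rw [Real.rpow_neg hMpos.le, ← one_div]
        exact one_div_le_one_div_of_le (by positivity) hlow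
      refine ⟨h, hlow, ?_, ?_, ?_, ?_⟩
      · rw [hh]
        calc ((M : ℝ) ^ (k + 1) / T) ^ ((1 : ℝ) / k) ≤ ((M : ℝ) ^ k) ^ ((1 : ℝ) / k) := by
              apply Real.rpow_le_rpow hbase.le _ (by positivity)
              rw [div_le_iff₀ hT0, pow_succ]
              nlinarith [pow_pos hMpos k]
          _ = M := by
              rw [← Real.rpow_natCast, ← Real.rpow_mul hMpos.le, mul_one_div_cancel hkpos.ne', Real.rpow_one]
      · rw [hhk]
        field_simp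
        exact le_rfl
      · have : 0 < 1 / T := by positivity
        linarith
      · have h1 : (M : ℝ) ^ k / (T * h ^ k) = 1 / M := by
          rw [hhk, pow_succ]
          field_simp
        rw [h1]
        have h2 : 1 / (M : ℝ) ≤ (M : ℝ) ^ (-δ) := by
          rw [Real.rpow_neg hMpos.le, ← one_div]
          apply one_div_le_one_div_of_le (by positivity)
          calc (M : ℝ) ^ δ ≤ (M : ℝ) ^ (1 : ℝ) := Real.rpow_le_rpow_of_exponent_le hM1 hδ1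
            _ = M := Real.rpow_one _
        have : 0 < 1 / T := by positivity
        linarith
  obtain ⟨h', hh1, hh2, hh3, hh4, hh5⟩ := key
  have hMδ : 0 < (M : ℝ) ^ δ := by positivity
  have hh0 : 0 < h' := lt_of_lt_of_le hMδ hh1
  have hκh : 2 ≤ κ * h' := by
    have h1 : κ * (4 * L) = 2 := by rw [hκ]; field_simp; norm_num
    calc (2 : ℝ) = κ * (4 * L) := h1.symm
      _ ≤ κ * h' := by gcongr; exact hML.trans hh1
  obtain ⟨H, hH⟩ : ∃ H : ℕ, H = ⌊κ * h'⌋₊ := ⟨_, rfl⟩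
  have hHle : (H : ℝ) ≤ κ * h' := by rw [hH]; exact Nat.floor_le (by positivity)
  have hHge : κ * h' / 2 ≤ H := by
    have := Nat.lt_floor_add_one (κ * h')
    rw [← hH] at this
    linarith
  have hH1 : 1 ≤ H := by
    rw [hH]; exact Nat.le_floor (by push_cast; linarith)
  have hHpos : (0 : ℝ) < H := by exact_mod_cast hH1
  have hHM : H ≤ M := by
    have : (H : ℝ) ≤ M := hHle.trans (by nlinarith)
    exact_mod_cast this
  have hb := exp_bound' (k := k) (A := (M : ℝ)) (B := 2 * M + 1) (φ := φ)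
    (lo := F / (L * (M : ℝ) ^ (k + 1))) (hi := L * F / (M : ℝ) ^ (k + 1))
    (by positivity) (by positivity) θ hθ h ((M : ℝ) + 1) M M H (by omega) le_rfl (by linarith)
    (by linarith) hH1 hHM (by
      calc 2 * (θ * (L * F / (M : ℝ) ^ (k + 1) * (H : ℝ) ^ k))
          = 2 * (L * (T / (M : ℝ) ^ (k + 1) * (H : ℝ) ^ k)) := by rw [hT]; ring
        _ ≤ 2 * (L * (T / (M : ℝ) ^ (k + 1) * (κ * h') ^ k)) := by gcongr
        _ = 2 * (L * κ ^ k) * (T * h' ^ k / (M : ℝ) ^ (k + 1)) := by rw [mul_pow]; ring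
        _ ≤ 1 * 1 := by
            apply mul_le_mul hκg _ (by positivity) zero_le_one
            rw [div_le_one (by positivity)]
            exact hh3
        _ = 1 := one_mul 1)
  unfold SG
  refine hb.trans ?_
  rw [mul_assoc (Cq k), mul_assoc (Cq k)]
  apply mul_le_mul_of_nonneg_left _ (Cq_pos k).le
  -- the final estimate
  have hlogH : Real.log H ≤ Real.log M := Real.log_le_log hHpos (by exact_mod_cast hHM)
  have hlogH0 : 0 ≤ Real.log H := Real.log_nonneg (by exact_mod_cast hH1)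
  obtain ⟨Ω, hΩ⟩ : ∃ Ω : ℝ, Ω = 1 / T + (M : ℝ) ^ (-δ) := ⟨_, rfl⟩
  rw [← hT, ← hΩ]
  rw [← hΩ] at hh4 hh5
  have hΩ0 : 0 < Ω := by rw [hΩ]; positivity
  have hL1 : 1 ≤ (1 + Real.log M) ^ k := one_le_pow₀ (by linarith)
  have a1 : 1 / (H : ℝ) ≤ 2 / κ * Ω := by
    calc 1 / (H : ℝ) ≤ 1 / (κ * h' / 2) := one_div_le_one_div_of_le (by positivity) hHge
      _ = 2 / κ * (1 / h') := by field_simp
      _ ≤ 2 / κ * Ω := by gcongr
  have a2 : 2 / (θ * (F / (L * (M : ℝ) ^ (k + 1)))) / M = 2 * L * ((M : ℝ) ^ k / T) := by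
    rw [hT, pow_succ]
    field_simp
  have a3 : ((1 + Real.log H) / H) ^ k ≤ (1 + Real.log M) ^ k * ((2 / κ) ^ k * (1 / h' ^ k)) := by
    calc ((1 + Real.log H) / H) ^ k ≤ ((1 + Real.log M) / (κ * h' / 2)) ^ k := by gcongr
      _ = _ := by
        rw [div_pow, div_pow, mul_pow, div_pow]
        field_simp
  calc 1 / (H : ℝ) + 2 / (θ * (F / (L * (M : ℝ) ^ (k + 1)))) / M * ((1 + Real.log H) / H) ^ k
      ≤ 2 / κ * Ω + 2 * L * ((M : ℝ) ^ k / T) * ((1 + Real.log M) ^ k * ((2 / κ) ^ k * (1 / h' ^ k))) := by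
        rw [a2]
        gcongr
    _ = 2 / κ * Ω + 2 * L * (2 / κ) ^ k * ((1 + Real.log M) ^ k * ((M : ℝ) ^ k / (T * h' ^ k))) := by
        field_simp
    _ ≤ 2 / κ * ((1 + Real.log M) ^ k * Ω) + 2 * L * (2 / κ) ^ k * ((1 + Real.log M) ^ k * Ω) := by
        gcongr
        exact le_mul_of_one_le_left hΩ0.le hL1
    _ = _ := by rw [h2κ]; ring

/-- Smooth phases: `φ m` is the `m`-th derivative of `φ 0` on `[M, 2 M + 1]`, `m ≤ k + 2`; `M ^ (k + 1) φ (k + 1)` has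
constant sign and absolute value between `F / L` and `L F`; `φ (k + 2)` does not change the sign. -/
structure Smooth (k : ℕ) (L F : ℝ) (M : ℕ) (φ : ℕ → ℝ → ℝ) : Prop where
  der : ∀ m ≤ k + 1, ∀ t ∈ Set.Icc (M : ℝ) (2 * M + 1), HasDerivAt (φ m) (φ (m + 1) t) t
  size : (∀ t ∈ Set.Icc (M : ℝ) (2 * M + 1), F / L ≤ (M : ℝ) ^ (k + 1) * φ (k + 1) t ∧
      (M : ℝ) ^ (k + 1) * φ (k + 1) t ≤ L * F) ∨
    (∀ t ∈ Set.Icc (M : ℝ) (2 * M + 1), F / L ≤ -((M : ℝ) ^ (k + 1) * φ (k + 1) t) ∧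
      -((M : ℝ) ^ (k + 1) * φ (k + 1) t) ≤ L * F)
  mono : (∀ t ∈ Set.Icc (M : ℝ) (2 * M + 1), φ (k + 2) t ≤ 0) ∨
    (∀ t ∈ Set.Icc (M : ℝ) (2 * M + 1), 0 ≤ φ (k + 2) t)

lemma SG_neg (f : ℝ → ℝ) (M : ℕ) (θ : ℝ) : ‖SG (fun t => -f t) M θ‖ = ‖SG f M θ‖ := by
  have h1 : SG (fun t => -f t) M θ = (starRingEnd ℂ) (SG f M θ) := by
    unfold SG
    rw [map_sum]
    refine sum_congr rfl fun n _ => ?_
    rw [conj_e]
    congr 1
    ring
  rw [h1, RCLike.norm_conj]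

lemma SG_refl (f : ℝ → ℝ) (M : ℕ) (θ : ℝ) : SG (fun t => f (3 * M + 1 - t)) M θ = SG f M θ := by
  unfold SG
  rw [← Finset.sum_range_reflect]
  refine sum_congr rfl fun n hn => ?_
  rw [mem_range] at hn
  congr 3
  have h1 : ((M - 1 - n : ℕ) : ℝ) = M - 1 - n := by
    rw [Nat.cast_sub (by omega), Nat.cast_sub (by omega), Nat.cast_one]
  rw [h1]
  ring

theorem bound {k : ℕ} (hk : 1 ≤ k) {δ L F : ℝ} (hδ0 : 0 < δ) (hδ1 : δ ≤ 1) (hL : 1 ≤ L) {M : ℕ}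
    (hM2 : 2 ≤ M) (hML : 4 * L ≤ (M : ℝ) ^ δ) (hF0 : 0 < F)
    (hF : F * (M : ℝ) ^ (k * δ) ≤ (M : ℝ) ^ (k + 1)) {φ : ℕ → ℝ → ℝ} (h : Smooth k L F M φ)
    {θ : ℝ} (hθ : 0 < θ) (hθ1 : θ ≤ 1) :
    (‖SG (φ 0) M θ‖ / M) ^ (2 ^ k) ≤
      Cq k * (4 * L + 2 * L * (4 * L) ^ k) * (1 + Real.log M) ^ k * (1 / (θ * F) + (M : ℝ) ^ (-δ)) := by
  have hM0 : (0 : ℝ) < M := by exact_mod_cast (by omega : 0 < M)
  have hL0 : 0 < L := by linarith
  have hMk : (0 : ℝ) < (M : ℝ) ^ (k + 1) := by positivity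
  -- from the sizes to `Hy`
  have conv : ∀ ψ : ℕ → ℝ → ℝ, (∀ m ≤ k + 1, ∀ t ∈ Set.Icc (M : ℝ) (2 * M + 1),
      HasDerivAt (ψ m) (ψ (m + 1) t) t) →
      (∀ t ∈ Set.Icc (M : ℝ) (2 * M + 1), F / L ≤ (M : ℝ) ^ (k + 1) * ψ (k + 1) t ∧
        (M : ℝ) ^ (k + 1) * ψ (k + 1) t ≤ L * F) →
      (∀ t ∈ Set.Icc (M : ℝ) (2 * M + 1), ψ (k + 2) t ≤ 0) →
      Hy k (M : ℝ) (2 * M + 1) (F / (L * (M : ℝ) ^ (k + 1))) (L * F / (M : ℝ) ^ (k + 1)) ψ := by
    intro ψ h1 h2 h3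
    refine ⟨h1, fun t ht => ?_, fun t ht => ?_, h3⟩
    · have h4 := (h2 t ht).1
      rw [div_le_iff₀ hL0] at h4
      rw [div_le_iff₀ (by positivity)]
      calc F ≤ (M : ℝ) ^ (k + 1) * ψ (k + 1) t * L := h4
        _ = _ := by ring
    · have h4 := (h2 t ht).2
      rw [le_div_iff₀ hMk]
      linarith
  have hrefl : ∀ t ∈ Set.Icc (M : ℝ) (2 * M + 1), (3 * (M : ℝ) + 1 - t) ∈ Set.Icc (M : ℝ) (2 * M + 1) :=
    fun t ht => ⟨by linarith [ht.2], by linarith [ht.1]⟩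
  have dneg : ∀ m ≤ k + 1, ∀ t ∈ Set.Icc (M : ℝ) (2 * M + 1),
      HasDerivAt (fun t => -φ m t) (-φ (m + 1) t) t := fun m hm t ht => (h.der m hm t ht).neg
  have drefl : ∀ s : ℝ, ∀ m ≤ k + 1, ∀ t ∈ Set.Icc (M : ℝ) (2 * M + 1),
      HasDerivAt (fun t => s * ((-1) ^ m * φ m (3 * M + 1 - t)))
        (s * ((-1) ^ (m + 1) * φ (m + 1) (3 * M + 1 - t))) t := by
    intro s m hm t ht
    have h1 : HasDerivAt (fun t : ℝ => 3 * (M : ℝ) + 1 - t) (-1) t := by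
      simpa using (hasDerivAt_id t).const_sub (3 * (M : ℝ) + 1)
    have h2 := (h.der m hm _ (hrefl t ht)).comp t h1
    have h3 := (h2.const_mul ((-1 : ℝ) ^ m)).const_mul s
    have e : s * ((-1) ^ (m + 1) * φ (m + 1) (3 * M + 1 - t)) =
        s * ((-1) ^ m * (φ (m + 1) (3 * M + 1 - t) * -1)) := by
      rw [pow_succ]
      ring
    rw [e]
    exact h3
  rcases h.size with hs | hs <;> rcases h.mono with hm | hm
  · exact bound_pos hk hδ0 hδ1 hL hM2 hML hF0 hF (conv φ h.der hs hm) hθ hθ1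
  · -- reflect
    have h1 := bound_pos hk hδ0 hδ1 hL hM2 hML hF0 hF
      (conv (fun m t => (-1) ^ (k + 1) * ((-1) ^ m * φ m (3 * M + 1 - t))) (drefl _)
        (fun t ht => by
          have h2 := hs _ (hrefl t ht)
          have e1 : (-1 : ℝ) ^ (k + 1) * ((-1) ^ (k + 1) * φ (k + 1) (3 * M + 1 - t)) =
              φ (k + 1) (3 * M + 1 - t) := by
            rw [← mul_assoc, ← mul_pow]; norm_num
          rw [e1]
          exact h2)
        (fun t ht => by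
          have h2 := hm _ (hrefl t ht)
          have e1 : (-1 : ℝ) ^ (k + 1) * ((-1) ^ (k + 2) * φ (k + 2) (3 * M + 1 - t)) =
              -φ (k + 2) (3 * M + 1 - t) := by
            rw [pow_succ (-1 : ℝ) (k + 1), ← mul_assoc, ← mul_assoc, ← mul_pow]; norm_num
          rw [e1]
          linarith)) hθ hθ1
    have h2 : ‖SG (fun t => (-1 : ℝ) ^ (k + 1) * ((-1) ^ 0 * φ 0 (3 * M + 1 - t))) M θ‖ =
        ‖SG (φ 0) M θ‖ := by
      rcases neg_one_pow_eq_or ℝ (k + 1) with he | he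
      · simp only [he, pow_zero, one_mul]
        rw [SG_refl (φ 0)]
      · simp only [he, pow_zero, one_mul, neg_mul]
        rw [SG_neg, SG_refl (φ 0)]
    rw [h2] at h1
    exact h1
  · -- reflect and negate
    have h1 := bound_pos hk hδ0 hδ1 hL hM2 hML hF0 hF
      (conv (fun m t => (-(-1) ^ (k + 1)) * ((-1) ^ m * φ m (3 * M + 1 - t))) (drefl _)
        (fun t ht => by
          have h2 := hs _ (hrefl t ht)
          have e1 : (-(-1 : ℝ) ^ (k + 1)) * ((-1) ^ (k + 1) * φ (k + 1) (3 * M + 1 - t)) =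
              -φ (k + 1) (3 * M + 1 - t) := by
            rw [neg_mul, ← mul_assoc, ← mul_pow]; norm_num
          rw [e1, mul_neg]
          exact h2)
        (fun t ht => by
          have h2 := hm _ (hrefl t ht)
          have e1 : (-(-1 : ℝ) ^ (k + 1)) * ((-1) ^ (k + 2) * φ (k + 2) (3 * M + 1 - t)) =
              φ (k + 2) (3 * M + 1 - t) := by
            rw [pow_succ (-1 : ℝ) (k + 1), neg_mul, ← mul_assoc, ← mul_assoc, ← mul_pow]; norm_num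
          rw [e1]
          exact h2)) hθ hθ1
    have h2 : ‖SG (fun t => (-(-1 : ℝ) ^ (k + 1)) * ((-1) ^ 0 * φ 0 (3 * M + 1 - t))) M θ‖ =
        ‖SG (φ 0) M θ‖ := by
      rcases neg_one_pow_eq_or ℝ (k + 1) with he | he
      · simp only [he, pow_zero, one_mul, neg_mul]
        rw [SG_neg, SG_refl (φ 0)]
      · simp only [he, pow_zero, one_mul, neg_neg]
        rw [SG_refl (φ 0)]
    rw [h2] at h1
    exact h1
  · -- negate
    have h1 := bound_pos hk hδ0 hδ1 hL hM2 hML hF0 hF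
      (conv (fun m t => -φ m t) dneg
        (fun t ht => by
          have h2 := hs t ht
          rw [mul_neg]
          exact h2)
        (fun t ht => by
          have h2 := hm t ht
          linarith)) hθ hθ1
    have h2 : ‖SG (fun t => -φ 0 t) M θ‖ = ‖SG (φ 0) M θ‖ := SG_neg _ _ _
    rw [h2] at h1
    exact h1

end Pool.Agent.Helper4.SP
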