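import Pool.Agent.Helper4.SP.FracHyp

/-!
The bounds for the exponential sums with smooth phases without logarithms.
-/

set_option autoImplicit false

namespace Pool.Agent.Helper4.SP

open Finset
open Pool.Agent.H469R2.NK (e norm_e e_add conj_e Av Av_nonneg Cq Cq_pos iterate)
open Pool.Agent.TH915.PW
open Pool.Agent.Helper3K9.PS

lemma one_le_Cq (q : ℕ) : 1 ≤ Cq q := by
  induction q with
  | zero => norm_num [Cq]
  | succ q ih =>
    unfold Cq
    have h1 : (1 : ℝ) ≤ 2 ^ (2 ^ q) := one_le_pow₀ (by norm_num)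
    have h2 : 0 ≤ 4 ^ (2 ^ q) * Cq q := by have := Cq_pos q; positivity
    nlinarith

lemma sum_inv_sqrt (n : ℕ) : ∑ l ∈ Ico 1 (n + 1), 1 / Real.sqrt (l : ℝ) ≤ 2 * Real.sqrt n := by
  induction n with
  | zero => simp
  | succ n ih =>
    rw [sum_Ico_succ_top (by omega)]
    have h0 : (0 : ℝ) < ((n + 1 : ℕ) : ℝ) := by positivity
    have hs : 0 < Real.sqrt ((n + 1 : ℕ) : ℝ) := Real.sqrt_pos.2 h0
    have h1 : 2 * Real.sqrt n * Real.sqrt ((n + 1 : ℕ) : ℝ) ≤ 2 * n + 1 := by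
      have h2 : Real.sqrt n * Real.sqrt ((n + 1 : ℕ) : ℝ) ≤ (n + ((n + 1 : ℕ) : ℝ)) / 2 := by
        have h3 := Real.sq_sqrt (Nat.cast_nonneg n : (0 : ℝ) ≤ n)
        have h4 := Real.sq_sqrt h0.le
        nlinarith [sq_nonneg (Real.sqrt n - Real.sqrt ((n + 1 : ℕ) : ℝ))]
      push_cast at h2 ⊢
      linarith
    have h5 : 2 * Real.sqrt n ≤ (2 * n + 1) / Real.sqrt ((n + 1 : ℕ) : ℝ) := by
      rw [le_div_iff₀ hs]
      exact h1
    have h6 : (2 * (n : ℝ) + 1) / Real.sqrt ((n + 1 : ℕ) : ℝ) + 1 / Real.sqrt ((n + 1 : ℕ) : ℝ) =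
        2 * Real.sqrt ((n + 1 : ℕ) : ℝ) := by
      have h7 := Real.mul_self_sqrt h0.le
      rw [← add_div, div_eq_iff hs.ne']
      push_cast at h7 ⊢
      linarith
    linarith

lemma sum_inv_sqrt' (H : ℕ) : ∑ l ∈ Ico 1 H, 1 / Real.sqrt (l : ℝ) ≤ 2 * Real.sqrt H := by
  rcases Nat.eq_zero_or_pos H with rfl | hH
  · simp
  · obtain ⟨n, rfl⟩ : ∃ n, H = n + 1 := ⟨H - 1, by omega⟩
    refine (sum_inv_sqrt n).trans ?_
    have : Real.sqrt n ≤ Real.sqrt ((n + 1 : ℕ) : ℝ) := Real.sqrt_le_sqrt (by push_cast; linarith)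
    linarith

/-- averages of `κ / √∏ ls` -/
lemma Av_le2 {H : ℕ} {T : List ℕ → ℝ} {κ : ℝ} (m : ℕ)
    (hT : ∀ ls : List ℕ, ls.length = m → (∀ l ∈ ls, 1 ≤ l ∧ l < H) → T ls ≤ κ / Real.sqrt ((ls.prod : ℕ) : ℝ))
    (q : ℕ) (ls : List ℕ) (hls : ls.length + q = m) (hl : ∀ l ∈ ls, 1 ≤ l ∧ l < H) :
    Av H T q ls ≤ κ * ((∑ l ∈ Ico 1 H, 1 / Real.sqrt (l : ℝ)) / H) ^ q / Real.sqrt ((ls.prod : ℕ) : ℝ) := by
  induction q generalizing ls with
  | zero => simpa [Av] using hT ls (by omega) hl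
  | succ q ih =>
    simp only [Av]
    have h1 : ∀ l ∈ Ico 1 H, Av H T q (l :: ls) ≤
        κ * ((∑ l ∈ Ico 1 H, 1 / Real.sqrt (l : ℝ)) / H) ^ q / Real.sqrt ((ls.prod : ℕ) : ℝ) *
          (1 / Real.sqrt (l : ℝ)) := by
      intro l hl'
      have hl'' := mem_Ico.mp hl'
      have := ih (l :: ls) (by simp only [List.length_cons]; omega) (by
        intro l2 hl2
        rcases List.mem_cons.mp hl2 with rfl | h
        · exact hl''
        · exact hl l2 h)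
      refine this.trans (le_of_eq ?_)
      rw [List.prod_cons, Nat.cast_mul, Real.sqrt_mul (Nat.cast_nonneg _)]
      rw [div_mul_div_comm, mul_one, mul_comm (Real.sqrt ((ls.prod : ℕ) : ℝ))]
    calc (∑ l ∈ Ico 1 H, Av H T q (l :: ls)) / H ≤
        (∑ l ∈ Ico 1 H, κ * ((∑ l ∈ Ico 1 H, 1 / Real.sqrt (l : ℝ)) / H) ^ q / Real.sqrt ((ls.prod : ℕ) : ℝ) *
          (1 / Real.sqrt (l : ℝ))) / H := by
          gcongr with l hl'
          exact h1 l hl'
      _ = _ := by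
          rw [← mul_sum, pow_succ]
          ring

/-- the exponential sum bound without logarithms -/
theorem exp_bound2 {k : ℕ} {A B lo hi : ℝ} {φ : ℕ → ℝ → ℝ} (hlo : 0 < lo) (hhi : 0 ≤ hi) (θ : ℝ)
    (hθ : 0 < θ) (h : Hy k A B lo hi φ) (u : ℝ) (N L H : ℕ) (hN : 1 ≤ N) (hL : L ≤ N)
    (hu : A ≤ u) (huL : u + L ≤ B) (hH : 1 ≤ H) (hHN : H ≤ N)
    (hup : 2 * (θ * (hi * (H : ℝ) ^ k)) ≤ 1) :
    (‖∑ n ∈ range L, e (θ * φ 0 (u + n))‖ / N) ^ (2 ^ k) ≤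
      Cq k * (1 / H + Real.sqrt (2 / (θ * lo) / N) * (2 / Real.sqrt H) ^ k) := by
  have hN' : (1 : ℝ) ≤ N := by exact_mod_cast hN
  have hH' : (1 : ℝ) ≤ H := by exact_mod_cast hH
  have hL' : (L : ℝ) ≤ N := by exact_mod_cast hL
  have hHN' : (H : ℝ) ≤ N := by exact_mod_cast hHN
  have hstep : ∀ ls : List ℕ, (‖SD φ θ u L ls‖ / N) ^ 2 ≤
      2 / H + 4 * ((∑ l ∈ Ico 1 H, ‖SD φ θ u L (l :: ls)‖ / N) / H) := by
    intro ls
    have h := SD_sq φ θ u L H ls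
    set Sg := ∑ l ∈ Ico 1 H, ‖SD φ θ u L (l :: ls)‖ with hSg
    have hSg0 : 0 ≤ Sg := sum_nonneg fun _ _ => norm_nonneg _
    have h2 : (H : ℝ) * ‖SD φ θ u L ls‖ ^ 2 ≤ (2 * N) * (N + 2 * Sg) := by
      refine h.trans ?_
      have : (L : ℝ) + H ≤ 2 * N := by linarith
      gcongr
    rw [← sum_div, ← hSg]
    have e1 : 2 / (H : ℝ) + 4 * (Sg / N / H) = ((2 * N) * (N + 2 * Sg)) / (H * N ^ 2) := by
      field_simp
      ring
    rw [e1, div_pow, div_le_div_iff₀ (by positivity) (by positivity)]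
    calc ‖SD φ θ u L ls‖ ^ 2 * (H * N ^ 2) = ((H : ℝ) * ‖SD φ θ u L ls‖ ^ 2) * N ^ 2 := by ring
      _ ≤ _ := by gcongr
  have hit := iterate hH (fun ls => ‖SD φ θ u L ls‖ / N) (fun ls => by positivity) hstep k []
  have hSS : ∑ n ∈ range L, e (θ * φ 0 (u + n)) = SD φ θ u L [] := by
    unfold SD
    simp only [List.sum_nil, Nat.sub_zero]
    rfl
  rw [hSS]
  refine hit.trans ?_
  have hC := Cq_pos k
  gcongr
  have h1 := Av_le2 (H := H) (T := fun ls => ‖SD φ θ u L ls‖ / N)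
    (κ := Real.sqrt (2 / (θ * lo) / N)) k (by
      intro ls hlen hent
      have hpos : 0 < ls.prod := List.prod_pos fun l hl => (hent l hl).1
      have hle : ls.prod ≤ H ^ k := by
        have := List.prod_le_pow_card ls H (fun l hl => (hent l hl).2.le)
        rwa [hlen] at this
      have hle' : ((ls.prod : ℕ) : ℝ) ≤ (H : ℝ) ^ k := by exact_mod_cast hle
      have h1 := SD_le hlo θ hθ h u L hu huL ls hpos hlen (by
        refine le_trans ?_ hup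
        gcongr)
      have hP : (0 : ℝ) < (ls.prod : ℕ) := by exact_mod_cast hpos
      have h2 : ‖SD φ θ u L ls‖ / N ≤ 2 / (θ * lo) / N / (ls.prod : ℕ) := by
        calc ‖SD φ θ u L ls‖ / N ≤ (2 / (θ * lo * (ls.prod : ℕ))) / N := by gcongr
          _ = _ := by field_simp
      have h3 : ‖SD φ θ u L ls‖ / N ≤ 1 := by
        rw [div_le_one (by linarith)]
        unfold SD
        refine (norm_sum_le _ _).trans ?_
        simp only [norm_e, sum_const, card_range, nsmul_eq_mul, mul_one]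
        refine le_trans ?_ hL'
        exact_mod_cast Nat.sub_le _ _
      rw [← Real.sqrt_div' _ hP.le]
      apply Real.le_sqrt_of_sq_le
      have h4 : 0 ≤ ‖SD φ θ u L ls‖ / N := by positivity
      nlinarith) k [] (by simp) (by simp)
  calc Av H (fun ls => ‖SD φ θ u L ls‖ / N) k [] ≤
        Real.sqrt (2 / (θ * lo) / N) * ((∑ l ∈ Ico 1 H, 1 / Real.sqrt (l : ℝ)) / H) ^ k /
          Real.sqrt ((([] : List ℕ).prod : ℕ) : ℝ) := h1
    _ = Real.sqrt (2 / (θ * lo) / N) * ((∑ l ∈ Ico 1 H, 1 / Real.sqrt (l : ℝ)) / H) ^ k := by simp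
    _ ≤ _ := by
      have h2 := sum_inv_sqrt' H
      have h0 : 0 ≤ ∑ l ∈ Ico 1 H, 1 / Real.sqrt (l : ℝ) := sum_nonneg fun _ _ => by positivity
      have h3 : (∑ l ∈ Ico 1 H, 1 / Real.sqrt (l : ℝ)) / H ≤ 2 / Real.sqrt H := by
        have hs : 0 < Real.sqrt H := Real.sqrt_pos.2 (by linarith)
        rw [div_le_div_iff₀ (by linarith) hs]
        have h4 := Real.mul_self_sqrt (by linarith : (0 : ℝ) ≤ H)
        nlinarith
      gcongr

/-- the constant -/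
noncomputable def CN (k : ℕ) (L : ℝ) : ℝ := Cq k * (4 * L + 2 ^ k * (2 * L) * (4 * L) ^ k)

lemma one_le_CN (k : ℕ) {L : ℝ} (hL : 1 ≤ L) : 1 ≤ CN k L := by
  unfold CN
  have h1 := one_le_Cq k
  have h2 : 0 ≤ 2 ^ k * (2 * L) * (4 * L) ^ k := by positivity
  nlinarith

set_option maxHeartbeats 2000000 in
/-- the bound for phases with `φ (k + 1) > 0`, `φ (k + 2) ≤ 0` -/
theorem bound_posN {k : ℕ} (hk : 1 ≤ k) {δ L F : ℝ} (hδ0 : 0 < δ) (hδ1 : δ ≤ 1) (hL : 1 ≤ L) {M : ℕ}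
    (hM2 : 2 ≤ M) (hML : 4 * L ≤ (M : ℝ) ^ δ) (hF0 : 0 < F)
    (hF : F * (M : ℝ) ^ (k * δ) ≤ (M : ℝ) ^ (k + 1)) {φ : ℕ → ℝ → ℝ}
    (h : Hy k (M : ℝ) (2 * M + 1) (F / (L * (M : ℝ) ^ (k + 1))) (L * F / (M : ℝ) ^ (k + 1)) φ)
    {θ : ℝ} (hθ : 0 < θ) (hθ1 : θ ≤ 1) :
    (‖SG (φ 0) M θ‖ / M) ^ (2 ^ k) ≤
      CN k L * Real.sqrt (1 / (θ * F) + (M : ℝ) ^ (-δ)) := by
  have hkR : (1 : ℝ) ≤ k := by exact_mod_cast hk
  have hkpos : (0 : ℝ) < k := by linarith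
  have hL0 : 0 < L := by linarith
  obtain ⟨κ, hκ⟩ : ∃ κ : ℝ, κ = 1 / (2 * L) := ⟨_, rfl⟩
  have hκ0 : 0 < κ := by rw [hκ]; positivity
  have hκ1 : κ ≤ 1 := by
    rw [hκ, div_le_one (by positivity)]; linarith
  have hκg : 2 * (L * κ ^ k) ≤ 1 := by
    have h1 : κ ^ k ≤ κ := by
      calc κ ^ k ≤ κ ^ 1 := pow_le_pow_of_le_one hκ0.le hκ1 hk
        _ = κ := pow_one _
    calc 2 * (L * κ ^ k) ≤ 2 * (L * κ) := by gcongr
      _ = 1 := by rw [hκ]; field_simp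
  have h2κ : 2 / κ = 4 * L := by rw [hκ]; field_simp; ring
  have hMR : (2 : ℝ) ≤ M := by exact_mod_cast hM2
  have hMpos : (0 : ℝ) < M := by linarith
  have hM1 : (1 : ℝ) ≤ M := by linarith
  have hlogM : 0 ≤ Real.log M := Real.log_nonneg hM1
  -- the parameter `h`
  obtain ⟨T, hT⟩ : ∃ T : ℝ, T = θ * F := ⟨_, rfl⟩
  have hT0 : 0 < T := by rw [hT]; positivity
  have hTc : T ≤ F := by
    rw [hT]; exact mul_le_of_le_one_left hF0.le hθ1
  have key : ∃ h : ℝ, (M : ℝ) ^ δ ≤ h ∧ h ≤ M ∧ T * h ^ k ≤ (M : ℝ) ^ (k + 1) ∧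
      1 / h ≤ 1 / T + (M : ℝ) ^ (-δ) ∧ (M : ℝ) ^ k / (T * h ^ k) ≤ 1 / T + (M : ℝ) ^ (-δ) := by
    rcases le_total T M with hTM | hTM
    · refine ⟨M, ?_, le_rfl, ?_, ?_, ?_⟩
      · calc (M : ℝ) ^ δ ≤ (M : ℝ) ^ (1 : ℝ) := Real.rpow_le_rpow_of_exponent_le hM1 hδ1
          _ = M := Real.rpow_one _
      · rw [pow_succ]
        nlinarith [pow_pos hMpos k]
      · have h1 : 1 / (M : ℝ) ≤ 1 / T := one_div_le_one_div_of_le hT0 hTM
        have h2 : 0 ≤ (M : ℝ) ^ (-δ) := by positivity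
        linarith
      · have h1 : (M : ℝ) ^ k / (T * (M : ℝ) ^ k) = 1 / T := by
          field_simp
        rw [h1]
        have h2 : 0 ≤ (M : ℝ) ^ (-δ) := by positivity
        linarith
    · obtain ⟨h, hh⟩ : ∃ h : ℝ, h = ((M : ℝ) ^ (k + 1) / T) ^ ((1 : ℝ) / k) := ⟨_, rfl⟩
      have hbase : 0 < (M : ℝ) ^ (k + 1) / T := by positivity
      have hhk : h ^ k = (M : ℝ) ^ (k + 1) / T := by
        rw [hh, ← Real.rpow_natCast, ← Real.rpow_mul hbase.le]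
        rw [one_div_mul_cancel hkpos.ne', Real.rpow_one]
      have hh0 : 0 < h := by rw [hh]; positivity
      have hlow : (M : ℝ) ^ δ ≤ h := by
        have h1 : (M : ℝ) ^ ((k : ℝ) * δ) ≤ (M : ℝ) ^ (k + 1) / T := by
          rw [le_div_iff₀ hT0]
          calc (M : ℝ) ^ ((k : ℝ) * δ) * T ≤ (M : ℝ) ^ ((k : ℝ) * δ) * F := by gcongr
            _ ≤ _ := by rw [mul_comm]; exact hF
        rw [hh]
        calc (M : ℝ) ^ δ = ((M : ℝ) ^ ((k : ℝ) * δ)) ^ ((1 : ℝ) / k) := by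
              rw [← Real.rpow_mul hMpos.le]
              congr 1
              field_simp
          _ ≤ _ := Real.rpow_le_rpow (by positivity) h1 (by positivity)
      have hinv : 1 / h ≤ (M : ℝ) ^ (-δ) := by
        rw [Real.rpow_neg hMpos.le, ← one_div]
        exact one_div_le_one_div_of_le (by positivity) hlow
      refine ⟨h, hlow, ?_, ?_, ?_, ?_⟩
      · rw [hh]
        calc ((M : ℝ) ^ (k + 1) / T) ^ ((1 : ℝ) / k) ≤ ((M : ℝ) ^ k) ^ ((1 : ℝ) / k) := by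
              apply Real.rpow_le_rpow hbase.le _ (by positivity)
              rw [div_le_iff₀ hT0, pow_succ]
              nlinarith [pow_pos hMpos k]
          _ = M := by
              rw [← Real.rpow_natCast, ← Real.rpow_mul hMpos.le, mul_one_div_cancel hkpos.ne', Real.rpow_one]
      · rw [hhk]
        field_simp
        exact le_rfl
      · have : 0 < 1 / T := by positivity
        linarith
      · have h1 : (M : ℝ) ^ k / (T * h ^ k) = 1 / M := by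
          rw [hhk, pow_succ]
          field_simp
        rw [h1]
        have h2 : 1 / (M : ℝ) ≤ (M : ℝ) ^ (-δ) := by
          rw [Real.rpow_neg hMpos.le, ← one_div]
          apply one_div_le_one_div_of_le (by positivity)
          calc (M : ℝ) ^ δ ≤ (M : ℝ) ^ (1 : ℝ) := Real.rpow_le_rpow_of_exponent_le hM1 hδ1
            _ = M := Real.rpow_one _
        have : 0 < 1 / T := by positivity
        linarith
  obtain ⟨h', hh1, hh2, hh3, hh4, hh5⟩ := key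
  have hMδ : 0 < (M : ℝ) ^ δ := by positivity
  have hh0 : 0 < h' := lt_of_lt_of_le hMδ hh1
  have hκh : 2 ≤ κ * h' := by
    have h1 : κ * (4 * L) = 2 := by rw [hκ]; field_simp; norm_num
    calc (2 : ℝ) = κ * (4 * L) := h1.symm
      _ ≤ κ * h' := by gcongr; exact hML.trans hh1
  obtain ⟨H, hH⟩ : ∃ H : ℕ, H = ⌊κ * h'⌋₊ := ⟨_, rfl⟩
  have hHle : (H : ℝ) ≤ κ * h' := by rw [hH]; exact Nat.floor_le (by positivity)
  have hHge : κ * h' / 2 ≤ H := by
    have := Nat.lt_floor_add_one (κ * h')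
    rw [← hH] at this
    linarith
  have hH1 : 1 ≤ H := by
    rw [hH]; exact Nat.le_floor (by push_cast; linarith)
  have hHpos : (0 : ℝ) < H := by exact_mod_cast hH1
  have hHM : H ≤ M := by
    have : (H : ℝ) ≤ M := hHle.trans (by nlinarith)
    exact_mod_cast this
  have hb := exp_bound2 (k := k) (A := (M : ℝ)) (B := 2 * M + 1) (φ := φ)
    (lo := F / (L * (M : ℝ) ^ (k + 1))) (hi := L * F / (M : ℝ) ^ (k + 1))
    (by positivity) (by positivity) θ hθ h ((M : ℝ) + 1) M M H (by omega) le_rfl (by linarith)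
    (by linarith) hH1 hHM (by
      calc 2 * (θ * (L * F / (M : ℝ) ^ (k + 1) * (H : ℝ) ^ k))
          = 2 * (L * (T / (M : ℝ) ^ (k + 1) * (H : ℝ) ^ k)) := by rw [hT]; ring
        _ ≤ 2 * (L * (T / (M : ℝ) ^ (k + 1) * (κ * h') ^ k)) := by gcongr
        _ = 2 * (L * κ ^ k) * (T * h' ^ k / (M : ℝ) ^ (k + 1)) := by rw [mul_pow]; ring
        _ ≤ 1 * 1 := by
            apply mul_le_mul hκg _ (by positivity) zero_le_one
            rw [div_le_one (by positivity)]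
            exact hh3
        _ = 1 := one_mul 1)
  obtain ⟨Ω, hΩ⟩ : ∃ Ω : ℝ, Ω = 1 / T + (M : ℝ) ^ (-δ) := ⟨_, rfl⟩
  rw [← hT, ← hΩ]
  rw [← hΩ] at hh4 hh5
  have hΩ0 : 0 < Ω := by rw [hΩ]; positivity
  have hCN := one_le_CN k hL
  rcases le_total 1 Ω with h1Ω | h1Ω
  · have h1 : ‖SG (φ 0) M θ‖ / M ≤ 1 := by
      rw [div_le_one hMpos]
      unfold SG
      refine (norm_sum_le _ _).trans ?_
      simp only [norm_e, sum_const, card_range, nsmul_eq_mul, mul_one]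
      exact le_rfl
    have h2 : (‖SG (φ 0) M θ‖ / M) ^ (2 ^ k) ≤ 1 := pow_le_one₀ (by positivity) h1
    have h3 : 1 ≤ Real.sqrt Ω := Real.one_le_sqrt.2 h1Ω
    nlinarith
  unfold SG
  refine hb.trans ?_
  unfold CN
  rw [mul_assoc (Cq k)]
  apply mul_le_mul_of_nonneg_left _ (Cq_pos k).le
  -- the final estimate
  have hsΩ : Ω ≤ Real.sqrt Ω := by
    apply Real.le_sqrt_of_sq_le
    nlinarith
  have a1 : 1 / (H : ℝ) ≤ 4 * L * Real.sqrt Ω := by
    calc 1 / (H : ℝ) ≤ 1 / (κ * h' / 2) := one_div_le_one_div_of_le (by positivity) hHge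
      _ = 2 / κ * (1 / h') := by field_simp
      _ ≤ 2 / κ * Ω := by gcongr
      _ = 4 * L * Ω := by rw [h2κ]
      _ ≤ _ := by gcongr
  have a2 : 2 / (θ * (F / (L * (M : ℝ) ^ (k + 1)))) / M = 2 * L * ((M : ℝ) ^ k / T) := by
    rw [hT, pow_succ]
    field_simp
  have hsH : Real.sqrt ((H : ℝ) ^ k) = (Real.sqrt H) ^ k := by
    rw [Real.sqrt_eq_iff_mul_self_eq (by positivity) (by positivity), ← mul_pow,
      Real.mul_self_sqrt (by positivity)]
  have a4 : 2 * L * ((M : ℝ) ^ k / T) / (H : ℝ) ^ k ≤ (2 * L * (4 * L) ^ k) ^ 2 * Ω := by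
    have e1 : 1 / (H : ℝ) ^ k ≤ (4 * L) ^ k * (1 / h' ^ k) := by
      calc 1 / (H : ℝ) ^ k = (1 / (H : ℝ)) ^ k := by rw [one_div_pow]
        _ ≤ (1 / (κ * h' / 2)) ^ k := by
            gcongr
        _ = (2 / κ * (1 / h')) ^ k := by
            congr 1
            field_simp
        _ = _ := by rw [h2κ, mul_pow, one_div_pow]
    have e2 : 1 ≤ 2 * L * (4 * L) ^ k := by
      have : (1 : ℝ) ≤ (4 * L) ^ k := one_le_pow₀ (by linarith)
      nlinarith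
    calc 2 * L * ((M : ℝ) ^ k / T) / (H : ℝ) ^ k = 2 * L * ((M : ℝ) ^ k / T) * (1 / (H : ℝ) ^ k) := by ring
      _ ≤ 2 * L * ((M : ℝ) ^ k / T) * ((4 * L) ^ k * (1 / h' ^ k)) := by gcongr
      _ = 2 * L * (4 * L) ^ k * ((M : ℝ) ^ k / (T * h' ^ k)) := by field_simp
      _ ≤ 2 * L * (4 * L) ^ k * Ω := by gcongr
      _ ≤ _ := by
          rw [sq]
          nlinarith [mul_pos (by positivity : 0 < 2 * L * (4 * L) ^ k) hΩ0]
  have a3 : Real.sqrt (2 / (θ * (F / (L * (M : ℝ) ^ (k + 1)))) / M) * (2 / Real.sqrt H) ^ k ≤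
      2 ^ k * (2 * L) * (4 * L) ^ k * Real.sqrt Ω := by
    rw [a2, div_pow, ← hsH]
    calc Real.sqrt (2 * L * ((M : ℝ) ^ k / T)) * (2 ^ k / Real.sqrt ((H : ℝ) ^ k)) =
          2 ^ k * (Real.sqrt (2 * L * ((M : ℝ) ^ k / T)) / Real.sqrt ((H : ℝ) ^ k)) := by ring
      _ = 2 ^ k * Real.sqrt (2 * L * ((M : ℝ) ^ k / T) / (H : ℝ) ^ k) := by
          rw [Real.sqrt_div' _ (by positivity : (0 : ℝ) ≤ (H : ℝ) ^ k)]
      _ ≤ 2 ^ k * Real.sqrt ((2 * L * (4 * L) ^ k) ^ 2 * Ω) := by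
          gcongr
      _ = 2 ^ k * ((2 * L * (4 * L) ^ k) * Real.sqrt Ω) := by
          rw [Real.sqrt_mul (by positivity), Real.sqrt_sq (by positivity)]
      _ = _ := by ring
  calc 1 / (H : ℝ) + Real.sqrt (2 / (θ * (F / (L * (M : ℝ) ^ (k + 1)))) / M) * (2 / Real.sqrt H) ^ k
      ≤ 4 * L * Real.sqrt Ω + 2 ^ k * (2 * L) * (4 * L) ^ k * Real.sqrt Ω := add_le_add a1 a3
    _ = _ := by ring

theorem boundN {k : ℕ} (hk : 1 ≤ k) {δ L F : ℝ} (hδ0 : 0 < δ) (hδ1 : δ ≤ 1) (hL : 1 ≤ L) {M : ℕ}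
    (hM2 : 2 ≤ M) (hML : 4 * L ≤ (M : ℝ) ^ δ) (hF0 : 0 < F)
    (hF : F * (M : ℝ) ^ (k * δ) ≤ (M : ℝ) ^ (k + 1)) {φ : ℕ → ℝ → ℝ} (h : Smooth k L F M φ)
    {θ : ℝ} (hθ : 0 < θ) (hθ1 : θ ≤ 1) :
    (‖SG (φ 0) M θ‖ / M) ^ (2 ^ k) ≤
      CN k L * Real.sqrt (1 / (θ * F) + (M : ℝ) ^ (-δ)) := by
  have hM0 : (0 : ℝ) < M := by exact_mod_cast (by omega : 0 < M)
  have hL0 : 0 < L := by linarith
  have hMk : (0 : ℝ) < (M : ℝ) ^ (k + 1) := by positivity
  -- from the sizes to `Hy`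
  have conv : ∀ ψ : ℕ → ℝ → ℝ, (∀ m ≤ k + 1, ∀ t ∈ Set.Icc (M : ℝ) (2 * M + 1),
      HasDerivAt (ψ m) (ψ (m + 1) t) t) →
      (∀ t ∈ Set.Icc (M : ℝ) (2 * M + 1), F / L ≤ (M : ℝ) ^ (k + 1) * ψ (k + 1) t ∧
        (M : ℝ) ^ (k + 1) * ψ (k + 1) t ≤ L * F) →
      (∀ t ∈ Set.Icc (M : ℝ) (2 * M + 1), ψ (k + 2) t ≤ 0) →
      Hy k (M : ℝ) (2 * M + 1) (F / (L * (M : ℝ) ^ (k + 1))) (L * F / (M : ℝ) ^ (k + 1)) ψ := by
    intro ψ h1 h2 h3
    refine ⟨h1, fun t ht => ?_, fun t ht => ?_, h3⟩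
    · have h4 := (h2 t ht).1
      rw [div_le_iff₀ hL0] at h4
      rw [div_le_iff₀ (by positivity)]
      calc F ≤ (M : ℝ) ^ (k + 1) * ψ (k + 1) t * L := h4
        _ = _ := by ring
    · have h4 := (h2 t ht).2
      rw [le_div_iff₀ hMk]
      linarith
  have hrefl : ∀ t ∈ Set.Icc (M : ℝ) (2 * M + 1), (3 * (M : ℝ) + 1 - t) ∈ Set.Icc (M : ℝ) (2 * M + 1) :=
    fun t ht => ⟨by linarith [ht.2], by linarith [ht.1]⟩
  have dneg : ∀ m ≤ k + 1, ∀ t ∈ Set.Icc (M : ℝ) (2 * M + 1),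
      HasDerivAt (fun t => -φ m t) (-φ (m + 1) t) t := fun m hm t ht => (h.der m hm t ht).neg
  have drefl : ∀ s : ℝ, ∀ m ≤ k + 1, ∀ t ∈ Set.Icc (M : ℝ) (2 * M + 1),
      HasDerivAt (fun t => s * ((-1) ^ m * φ m (3 * M + 1 - t)))
        (s * ((-1) ^ (m + 1) * φ (m + 1) (3 * M + 1 - t))) t := by
    intro s m hm t ht
    have h1 : HasDerivAt (fun t : ℝ => 3 * (M : ℝ) + 1 - t) (-1) t := by
      simpa using (hasDerivAt_id t).const_sub (3 * (M : ℝ) + 1)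
    have h2 := (h.der m hm _ (hrefl t ht)).comp t h1
    have h3 := (h2.const_mul ((-1 : ℝ) ^ m)).const_mul s
    have e : s * ((-1) ^ (m + 1) * φ (m + 1) (3 * M + 1 - t)) =
        s * ((-1) ^ m * (φ (m + 1) (3 * M + 1 - t) * -1)) := by
      rw [pow_succ]
      ring
    rw [e]
    exact h3
  rcases h.size with hs | hs <;> rcases h.mono with hm | hm
  · exact bound_posN hk hδ0 hδ1 hL hM2 hML hF0 hF (conv φ h.der hs hm) hθ hθ1
  · -- reflect
    have h1 := bound_posN hk hδ0 hδ1 hL hM2 hML hF0 hF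
      (conv (fun m t => (-1) ^ (k + 1) * ((-1) ^ m * φ m (3 * M + 1 - t))) (drefl _)
        (fun t ht => by
          have h2 := hs _ (hrefl t ht)
          have e1 : (-1 : ℝ) ^ (k + 1) * ((-1) ^ (k + 1) * φ (k + 1) (3 * M + 1 - t)) =
              φ (k + 1) (3 * M + 1 - t) := by
            rw [← mul_assoc, ← mul_pow]; norm_num
          rw [e1]
          exact h2)
        (fun t ht => by
          have h2 := hm _ (hrefl t ht)
          have e1 : (-1 : ℝ) ^ (k + 1) * ((-1) ^ (k + 2) * φ (k + 2) (3 * M + 1 - t)) =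
              -φ (k + 2) (3 * M + 1 - t) := by
            rw [pow_succ (-1 : ℝ) (k + 1), ← mul_assoc, ← mul_assoc, ← mul_pow]; norm_num
          rw [e1]
          linarith)) hθ hθ1
    have h2 : ‖SG (fun t => (-1 : ℝ) ^ (k + 1) * ((-1) ^ 0 * φ 0 (3 * M + 1 - t))) M θ‖ =
        ‖SG (φ 0) M θ‖ := by
      rcases neg_one_pow_eq_or ℝ (k + 1) with he | he
      · simp only [he, pow_zero, one_mul]
        rw [SG_refl (φ 0)]
      · simp only [he, pow_zero, one_mul, neg_mul]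
        rw [SG_neg, SG_refl (φ 0)]
    rw [h2] at h1
    exact h1
  · -- reflect and negate
    have h1 := bound_posN hk hδ0 hδ1 hL hM2 hML hF0 hF
      (conv (fun m t => (-(-1) ^ (k + 1)) * ((-1) ^ m * φ m (3 * M + 1 - t))) (drefl _)
        (fun t ht => by
          have h2 := hs _ (hrefl t ht)
          have e1 : (-(-1 : ℝ) ^ (k + 1)) * ((-1) ^ (k + 1) * φ (k + 1) (3 * M + 1 - t)) =
              -φ (k + 1) (3 * M + 1 - t) := by
            rw [neg_mul, ← mul_assoc, ← mul_pow]; norm_num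
          rw [e1, mul_neg]
          exact h2)
        (fun t ht => by
          have h2 := hm _ (hrefl t ht)
          have e1 : (-(-1 : ℝ) ^ (k + 1)) * ((-1) ^ (k + 2) * φ (k + 2) (3 * M + 1 - t)) =
              φ (k + 2) (3 * M + 1 - t) := by
            rw [pow_succ (-1 : ℝ) (k + 1), neg_mul, ← mul_assoc, ← mul_assoc, ← mul_pow]; norm_num
          rw [e1]
          exact h2)) hθ hθ1
    have h2 : ‖SG (fun t => (-(-1 : ℝ) ^ (k + 1)) * ((-1) ^ 0 * φ 0 (3 * M + 1 - t))) M θ‖ =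
        ‖SG (φ 0) M θ‖ := by
      rcases neg_one_pow_eq_or ℝ (k + 1) with he | he
      · simp only [he, pow_zero, one_mul, neg_mul]
        rw [SG_neg, SG_refl (φ 0)]
      · simp only [he, pow_zero, one_mul, neg_neg]
        rw [SG_refl (φ 0)]
    rw [h2] at h1
    exact h1
  · -- negate
    have h1 := bound_posN hk hδ0 hδ1 hL hM2 hML hF0 hF
      (conv (fun m t => -φ m t) dneg
        (fun t ht => by
          have h2 := hs t ht
          rw [mul_neg]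
          exact h2)
        (fun t ht => by
          have h2 := hm t ht
          linarith)) hθ hθ1
    have h2 : ‖SG (fun t => -φ 0 t) M θ‖ = ‖SG (φ 0) M θ‖ := SG_neg _ _ _
    rw [h2] at h1
    exact h1

end Pool.Agent.Helper4.SP
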