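import Pool.Agent.Helper4.SP.Hyp

/-!
The additive energy of the sets of the integers `n` in `(M, 2 M]` for which the fractional part of `f(n)` lies in a short
interval, uniformly in the smooth function `f`.
-/

set_option autoImplicit false

namespace Pool.Agent.Helper4.SP

open Finset
open Pool.Agent.H469R2.NK (e norm_e e_add conj_e e_zero Cq Cq_pos kusmin_landau_mono)
open Pool.Agent.TH212.EH (En)
open Pool.Agent.Helper3K9.PS (DD e_sum re_e)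

/-- the weighted exponential sum of a finite family of real numbers -/
noncomputable def SW {M : ℕ} (w f : Fin M → ℝ) (t : ℝ) : ℂ := ∑ j, (w j : ℂ) * e (t * f j)

lemma SW_neg {M : ℕ} (w f : Fin M → ℝ) (t : ℝ) : SW w f (-t) = (starRingEnd ℂ) (SW w f t) := by
  unfold SW
  rw [map_sum]
  refine sum_congr rfl fun j _ => ?_
  rw [map_mul, Complex.conj_ofReal, conj_e]
  congr 2
  ring

lemma sum_we {M p : ℕ} (w f : Fin M → ℝ) (t : ℝ) :
    ∑ q : (Fin p → Fin M) × (Fin p → Fin M), (((∏ i, w (q.1 i)) * ∏ i, w (q.2 i) : ℝ) : ℂ) * e (t * DD f q) =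
      ((‖SW w f t‖ ^ (2 * p) : ℝ) : ℂ) := by
  have h1 : ∀ q : (Fin p → Fin M) × (Fin p → Fin M),
      (((∏ i, w (q.1 i)) * ∏ i, w (q.2 i) : ℝ) : ℂ) * e (t * DD f q) =
      (∏ i, (w (q.1 i) : ℂ) * e (t * f (q.1 i))) * ∏ i, (w (q.2 i) : ℂ) * e ((-t) * f (q.2 i)) := by
    intro q
    rw [prod_mul_distrib, prod_mul_distrib, ← e_sum, ← e_sum]
    have h0 : e (t * DD f q) = e (∑ i, t * f (q.1 i)) * e (∑ i, (-t) * f (q.2 i)) := by
      rw [← e_add]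
      congr 1
      unfold DD
      rw [mul_sub, mul_sum, mul_sum]
      simp only [neg_mul, sum_neg_distrib]
      ring
    rw [h0]
    push_cast
    ring
  rw [Fintype.sum_congr _ _ h1, Fintype.sum_prod_type]
  simp only
  have h2 : ∀ x : Fin p → Fin M, ∑ y : Fin p → Fin M, (∏ i, (w (x i) : ℂ) * e (t * f (x i))) *
      ∏ i, (w (y i) : ℂ) * e ((-t) * f (y i)) = (∏ i, (w (x i) : ℂ) * e (t * f (x i))) * SW w f (-t) ^ p := by
    intro x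
    rw [← mul_sum]
    congr 1
    unfold SW
    rw [Fintype.sum_pow]
  rw [Fintype.sum_congr _ _ h2, ← sum_mul]
  have h3 : ∑ x : Fin p → Fin M, ∏ i, (w (x i) : ℂ) * e (t * f (x i)) = SW w f t ^ p := by
    unfold SW
    rw [Fintype.sum_pow]
  rw [h3, SW_neg, ← mul_pow, Complex.mul_conj, Complex.normSq_eq_norm_sq, pow_mul]
  push_cast
  rfl

/-- weighted counting with the exponential sums -/
theorem wcount_le {M p : ℕ} (w f : Fin M → ℝ) (hw : ∀ j, 0 ≤ w j) (J : ℕ) (hJ : 1 ≤ J) (δ : ℝ)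
    (A : Finset ((Fin p → Fin M) × (Fin p → Fin M))) (hA : ∀ q ∈ A, DD f q = 0) :
    ∑ q ∈ A, (∏ i, w (q.1 i)) * ∏ i, w (q.2 i) ≤ 2 / J * ∑ i ∈ range J, ‖SW w f (i * δ)‖ ^ (2 * p) := by
  classical
  have hJR : (1 : ℝ) ≤ J := by exact_mod_cast hJ
  have hJ0 : (0 : ℝ) < J := by linarith
  obtain ⟨V, hV⟩ : ∃ V : (Fin p → Fin M) × (Fin p → Fin M) → ℝ,
      V = fun q => (∏ i, w (q.1 i)) * ∏ i, w (q.2 i) := ⟨_, rfl⟩
  have hV0 : ∀ q, 0 ≤ V q := fun q => by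
    rw [hV]
    exact mul_nonneg (prod_nonneg fun _ _ => hw _) (prod_nonneg fun _ _ => hw _)
  obtain ⟨W, hW⟩ : ∃ W : (Fin p → Fin M) × (Fin p → Fin M) → ℂ,
      W = fun q => ∑ j ∈ range J, e (((j : ℝ) * δ) * DD f q) := ⟨_, rfl⟩
  have hlow : ∀ q ∈ A, V q * (J : ℝ) ^ 2 ≤ V q * ‖W q‖ ^ 2 := by
    intro q hq
    have h1 : W q = (J : ℂ) := by
      rw [hW]
      simp only [hA q hq, mul_zero, e_zero, sum_const, card_range, nsmul_eq_mul, mul_one]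
    rw [h1, Complex.norm_natCast]
  have hsum : ((∑ q, V q * ‖W q‖ ^ 2 : ℝ) : ℂ) = ((∑ j ∈ range J, ∑ j' ∈ range J,
      ‖SW w f (((j : ℝ) - j') * δ)‖ ^ (2 * p) : ℝ) : ℂ) := by
    have h1 : ∀ q, ((V q * ‖W q‖ ^ 2 : ℝ) : ℂ) =
        ∑ j ∈ range J, ∑ j' ∈ range J, (V q : ℂ) * e ((((j : ℝ) - j') * δ) * DD f q) := by
      intro q
      have h2 : ((‖W q‖ ^ 2 : ℝ) : ℂ) = W q * (starRingEnd ℂ) (W q) := by
        rw [Complex.mul_conj, Complex.normSq_eq_norm_sq]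
      rw [Complex.ofReal_mul, h2, hW]
      simp only
      rw [map_sum, sum_mul_sum, mul_sum]
      apply sum_congr rfl
      intro j _
      rw [mul_sum]
      apply sum_congr rfl
      intro j' _
      rw [conj_e, ← e_add]
      congr 2
      ring
    rw [Complex.ofReal_sum, Fintype.sum_congr _ _ h1, sum_comm, Complex.ofReal_sum]
    refine sum_congr rfl fun j _ => ?_
    rw [sum_comm, Complex.ofReal_sum]
    refine sum_congr rfl fun j' _ => ?_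
    rw [← sum_we]
    refine Fintype.sum_congr _ _ fun q => ?_
    rw [hV]
  have hsum' : ∑ q, V q * ‖W q‖ ^ 2 = ∑ j ∈ range J, ∑ j' ∈ range J,
      ‖SW w f (((j : ℝ) - j') * δ)‖ ^ (2 * p) := by exact_mod_cast hsum
  -- the fibres
  obtain ⟨G, hG⟩ : ∃ G : ℕ → ℝ, G = (fun i : ℕ => ‖SW w f ((i : ℝ) * δ)‖ ^ (2 * p)) := ⟨_, rfl⟩
  have hG0 : ∀ i, 0 ≤ G i := fun i => by rw [hG]; positivity
  have hGeq : ∀ j j' : ℕ, ‖SW w f (((j : ℝ) - j') * δ)‖ ^ (2 * p) = G ((j : ℤ) - j').natAbs := by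
    intro j j'
    rw [hG]
    simp only
    have h1 : (((((j : ℤ) - j').natAbs : ℕ)) : ℝ) = |(j : ℝ) - j'| := by
      rw [Nat.cast_natAbs]
      push_cast
      rfl
    rw [h1]
    rcases le_total 0 ((j : ℝ) - j') with h | h
    · rw [abs_of_nonneg h]
    · rw [abs_of_nonpos h, neg_mul, SW_neg, Complex.norm_conj]
  have hrow : ∀ j ∈ range J, ∑ j' ∈ range J, ‖SW w f (((j : ℝ) - j') * δ)‖ ^ (2 * p) ≤ 2 * ∑ i ∈ range J, G i := by
    intro j hj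
    rw [mem_range] at hj
    rw [sum_congr rfl (fun j' _ => hGeq j j')]
    have hmaps : ∀ j' ∈ range J, ((j : ℤ) - j').natAbs ∈ range J := by
      intro j' hj'
      rw [mem_range] at hj' ⊢
      omega
    rw [← sum_fiberwise_of_maps_to hmaps, mul_sum]
    apply sum_le_sum
    intro i _
    have h1 : ∑ j' ∈ (range J).filter (fun j' : ℕ => ((j : ℤ) - j').natAbs = i), G ((j : ℤ) - j').natAbs =
        ((range J).filter (fun j' : ℕ => ((j : ℤ) - j').natAbs = i)).card * G i := by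
      rw [← nsmul_eq_mul, ← sum_const]
      apply sum_congr rfl
      intro j' hj'
      rw [(mem_filter.1 hj').2]
    rw [h1]
    apply mul_le_mul_of_nonneg_right _ (hG0 i)
    have h2 : ((range J).filter (fun j' : ℕ => ((j : ℤ) - j').natAbs = i)) ⊆ {j - i, j + i} := by
      intro j' hj'
      rw [mem_filter] at hj'
      rw [mem_insert, mem_singleton]
      omega
    have h3 := (card_le_card h2).trans card_le_two
    exact_mod_cast h3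
  have htot : ∑ q, V q * ‖W q‖ ^ 2 ≤ J * (2 * ∑ i ∈ range J, G i) := by
    rw [hsum']
    calc _ ≤ ∑ _j ∈ range J, 2 * ∑ i ∈ range J, G i := sum_le_sum hrow
      _ = _ := by rw [sum_const, card_range, nsmul_eq_mul]
  have hA2 : (∑ q ∈ A, V q) * (J : ℝ) ^ 2 ≤ ∑ q, V q * ‖W q‖ ^ 2 := by
    calc (∑ q ∈ A, V q) * (J : ℝ) ^ 2 = ∑ q ∈ A, V q * (J : ℝ) ^ 2 := by rw [sum_mul]
      _ ≤ ∑ q ∈ A, V q * ‖W q‖ ^ 2 := sum_le_sum hlow
      _ ≤ ∑ q, V q * ‖W q‖ ^ 2 := sum_le_sum_of_subset_of_nonneg (subset_univ _) fun q _ _ =>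
          mul_nonneg (hV0 q) (by positivity)
  have hfin := hA2.trans htot
  have hGs : ∑ i ∈ range J, ‖SW w f ((i : ℝ) * δ)‖ ^ (2 * p) = ∑ i ∈ range J, G i := by rw [hG]
  rw [hGs]
  have hVs : ∑ q ∈ A, (∏ i, w (q.1 i)) * ∏ i, w (q.2 i) = ∑ q ∈ A, V q := by rw [hV]
  rw [hVs]
  have h5 : ∑ q ∈ A, V q ≤ J * (2 * ∑ i ∈ range J, G i) / (J : ℝ) ^ 2 := by
    rw [le_div_iff₀ (by positivity)]
    exact hfin
  refine h5.trans (le_of_eq ?_)
  field_simp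

/-- the exponential sum with the phase `m f(n) + β n` -/
noncomputable def TT (f : ℝ → ℝ) (M : ℕ) (m β : ℝ) : ℂ :=
  ∑ n ∈ range M, e (m * f ((M : ℝ) + 1 + n) + β * ((M : ℝ) + 1 + n))

lemma TT_neg (f : ℝ → ℝ) (M : ℕ) (m β : ℝ) : ‖TT f M (-m) (-β)‖ = ‖TT f M m β‖ := by
  have h1 : TT f M (-m) (-β) = (starRingEnd ℂ) (TT f M m β) := by
    unfold TT
    rw [map_sum]
    refine sum_congr rfl fun n _ => ?_
    rw [conj_e]
    congr 1
    ring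
  rw [h1, RCLike.norm_conj]

lemma TT_le (f : ℝ → ℝ) (M : ℕ) (m β : ℝ) : ‖TT f M m β‖ ≤ M := by
  unfold TT
  refine (norm_sum_le _ _).trans ?_
  simp only [norm_e, sum_const, card_range, nsmul_eq_mul, mul_one]
  exact le_rfl

lemma TT_zero (f : ℝ → ℝ) (M : ℕ) {β : ℝ} (h0 : 0 < β) (h1 : β ≤ 1 / 2) : ‖TT f M 0 β‖ ≤ 2 / β := by
  unfold TT
  apply kusmin_landau_mono (fun n : ℕ => 0 * f ((M : ℝ) + 1 + n) + β * ((M : ℝ) + 1 + n)) M h0
  · intro n _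
    push_cast
    apply le_of_eq
    ring
  · intro n _
    push_cast
    linarith
  · intro n _
    push_cast
    apply le_of_eq
    ring

lemma Smooth.lin {k : ℕ} (hk : 1 ≤ k) {L F : ℝ} {M : ℕ} {φ : ℕ → ℝ → ℝ} (h : Smooth k L F M φ) {m : ℝ}
    (hm : 0 < m) (β : ℝ) :
    Smooth k L (m * F) M (fun j t => m * φ j t + (if j = 0 then β * t else if j = 1 then β else 0)) := by
  have hk1 : ¬ k + 1 = 0 := by omega
  have hk2 : ¬ k + 1 = 1 := by omega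
  have hk3 : ¬ k + 2 = 0 := by omega
  have hk4 : ¬ k + 2 = 1 := by omega
  refine ⟨fun j hj t ht => ?_, ?_, ?_⟩
  · have h1 := (h.der j hj t ht).const_mul m
    rcases j with _ | _ | j
    · have h2 : HasDerivAt (fun t : ℝ => β * t) β t := by simpa using (hasDerivAt_id t).const_mul β
      have h3 : HasDerivAt (fun t => m * φ 0 t + β * t) (m * φ (0 + 1) t + β) t := h1.add h2
      simpa using h3
    · have h3 := h1.add_const β
      simpa using h3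
    · simpa using h1
  · simp only [hk1, hk2, if_false, add_zero]
    rcases h.size with hs | hs
    · left
      intro t ht
      obtain ⟨h1, h2⟩ := hs t ht
      constructor
      · calc m * F / L = m * (F / L) := by ring
          _ ≤ m * ((M : ℝ) ^ (k + 1) * φ (k + 1) t) := by gcongr
          _ = _ := by ring
      · calc (M : ℝ) ^ (k + 1) * (m * φ (k + 1) t) = m * ((M : ℝ) ^ (k + 1) * φ (k + 1) t) := by ring
          _ ≤ m * (L * F) := by gcongr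
          _ = _ := by ring
    · right
      intro t ht
      obtain ⟨h1, h2⟩ := hs t ht
      constructor
      · calc m * F / L = m * (F / L) := by ring
          _ ≤ m * -((M : ℝ) ^ (k + 1) * φ (k + 1) t) := by gcongr
          _ = _ := by ring
      · calc -((M : ℝ) ^ (k + 1) * (m * φ (k + 1) t)) = m * -((M : ℝ) ^ (k + 1) * φ (k + 1) t) := by ring
          _ ≤ m * (L * F) := by gcongr
          _ = _ := by ring
  · simp only [hk3, hk4, if_false, add_zero]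
    rcases h.mono with hs | hs
    · left
      intro t ht
      have := hs t ht
      nlinarith
    · right
      intro t ht
      exact mul_nonneg hm.le (hs t ht)

lemma TT_bound_pos {k : ℕ} (hk : 1 ≤ k) {δ L F : ℝ} (hδ0 : 0 < δ) (hδ1 : δ ≤ 1) (hL : 1 ≤ L) {M : ℕ}
    (hM2 : 2 ≤ M) (hML : 4 * L ≤ (M : ℝ) ^ δ) (hF1 : (M : ℝ) ^ δ ≤ F) {H : ℝ}
    (hF : H * F * (M : ℝ) ^ (k * δ) ≤ (M : ℝ) ^ (k + 1)) {φ : ℕ → ℝ → ℝ} (h : Smooth k L F M φ) (β : ℝ) {m : ℝ}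
    (hm1 : 1 ≤ m) (hmH : m ≤ H) :
    (‖TT (φ 0) M m β‖ / M) ^ (2 ^ k) ≤ CL k L * (1 + Real.log M) ^ k * (2 * (M : ℝ) ^ (-δ)) := by
  have hM0 : (0 : ℝ) < M := by exact_mod_cast (by omega : 0 < M)
  have hM1 : (1 : ℝ) ≤ M := by exact_mod_cast (by omega : 1 ≤ M)
  have hMδ : 0 < (M : ℝ) ^ δ := by positivity
  have hF0 : 0 < F := by linarith
  have hm0 : 0 < m := by linarith
  have hlog : 0 ≤ Real.log M := Real.log_nonneg hM1
  have hb := bound hk hδ0 hδ1 hL hM2 hML (F := m * F) (by positivity) (by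
    refine le_trans ?_ hF
    gcongr) (h.lin hk hm0 β) (θ := 1) one_pos le_rfl
  have e1 : SG (fun t => m * φ 0 t + (if 0 = 0 then β * t else if 0 = 1 then β else 0)) M 1 = TT (φ 0) M m β := by
    unfold SG TT
    refine sum_congr rfl fun n _ => ?_
    simp
  have e2 : (‖TT (φ 0) M m β‖ / M) ^ (2 ^ k) ≤
      CL k L * (1 + Real.log M) ^ k * (1 / (1 * (m * F)) + (M : ℝ) ^ (-δ)) := by
    rw [← e1]
    exact hb
  refine e2.trans ?_
  have hCL := CL_pos (k := k) hL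
  apply mul_le_mul_of_nonneg_left _ (by positivity)
  have e3 : 1 / (1 * (m * F)) ≤ (M : ℝ) ^ (-δ) := by
    rw [Real.rpow_neg hM0.le, ← one_div]
    apply one_div_le_one_div_of_le hMδ
    nlinarith
  linarith

lemma TT_bound {k : ℕ} (hk : 1 ≤ k) {δ L F : ℝ} (hδ0 : 0 < δ) (hδ1 : δ ≤ 1) (hL : 1 ≤ L) {M : ℕ}
    (hM2 : 2 ≤ M) (hML : 4 * L ≤ (M : ℝ) ^ δ) (hF1 : (M : ℝ) ^ δ ≤ F) {H : ℕ}
    (hF : (H : ℝ) * F * (M : ℝ) ^ (k * δ) ≤ (M : ℝ) ^ (k + 1)) {φ : ℕ → ℝ → ℝ} (h : Smooth k L F M φ) (β : ℝ)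
    {i i' : ℕ} (hi : i < H) (hi' : i' < H) (hne : i ≠ i') :
    (‖TT (φ 0) M ((i : ℝ) - i') β‖ / M) ^ (2 ^ k) ≤ CL k L * (1 + Real.log M) ^ k * (2 * (M : ℝ) ^ (-δ)) := by
  have hiR : (i : ℝ) ≤ H := by exact_mod_cast hi.le
  have hiR' : (i' : ℝ) ≤ H := by exact_mod_cast hi'.le
  have h0 : (0 : ℝ) ≤ i := Nat.cast_nonneg _
  have h0' : (0 : ℝ) ≤ i' := Nat.cast_nonneg _
  rcases Nat.lt_or_ge i' i with hlt | hge
  · have h1 : (i' : ℝ) + 1 ≤ i := by exact_mod_cast hlt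
    exact TT_bound_pos hk hδ0 hδ1 hL hM2 hML hF1 hF h β (by linarith) (by linarith)
  · have hlt : i < i' := by omega
    have h1 : (i : ℝ) + 1 ≤ i' := by exact_mod_cast hlt
    rw [← TT_neg]
    exact TT_bound_pos hk hδ0 hδ1 hL hM2 hML hF1 hF h (-β) (by linarith) (by linarith)

/-- the weights -/
noncomputable def ww (f : ℝ → ℝ) (M H : ℕ) (c : ℝ) (j : Fin M) : ℝ :=
  ‖∑ i ∈ range H, e (i * (f ((M : ℝ) + 1 + ((j : ℕ) : ℝ)) - c))‖ ^ 2

lemma SW_le (f : ℝ → ℝ) (M H : ℕ) (c β R : ℝ) (hR0 : 0 ≤ R)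
    (hR : ∀ i < H, ∀ i' < H, i ≠ i' → ‖TT f M ((i : ℝ) - i') β‖ ≤ R) :
    ‖SW (ww f M H c) (fun j : Fin M => (M : ℝ) + 1 + ((j : ℕ) : ℝ)) β‖ ≤ H * ‖TT f M 0 β‖ + H ^ 2 * R := by
  have h1 : SW (ww f M H c) (fun j : Fin M => (M : ℝ) + 1 + ((j : ℕ) : ℝ)) β =
      ∑ i ∈ range H, ∑ i' ∈ range H, e (-(((i : ℝ) - i') * c)) * TT f M ((i : ℝ) - i') β := by
    unfold SW
    have h2 : ∀ j : Fin M, ((ww f M H c j : ℝ) : ℂ) * e (β * ((M : ℝ) + 1 + ((j : ℕ) : ℝ))) =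
        ∑ i ∈ range H, ∑ i' ∈ range H, e (-(((i : ℝ) - i') * c)) *
          e (((i : ℝ) - i') * f ((M : ℝ) + 1 + ((j : ℕ) : ℝ)) + β * ((M : ℝ) + 1 + ((j : ℕ) : ℝ))) := by
      intro j
      unfold ww
      have h3 : ∀ z : ℂ, ((‖z‖ ^ 2 : ℝ) : ℂ) = z * (starRingEnd ℂ) z := by
        intro z
        rw [Complex.mul_conj, Complex.normSq_eq_norm_sq]
      rw [h3, map_sum, sum_mul_sum, sum_mul]
      refine sum_congr rfl fun i _ => ?_
      rw [sum_mul]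
      refine sum_congr rfl fun i' _ => ?_
      rw [conj_e, ← e_add, ← e_add, ← e_add]
      congr 1
      ring
    rw [Fintype.sum_congr _ _ h2, sum_comm]
    refine sum_congr rfl fun i _ => ?_
    rw [sum_comm]
    refine sum_congr rfl fun i' _ => ?_
    rw [← mul_sum]
    congr 1
    unfold TT
    rw [← Fin.sum_univ_eq_sum_range (fun n => e (((i : ℝ) - i') * f ((M : ℝ) + 1 + (n : ℝ)) +
      β * ((M : ℝ) + 1 + (n : ℝ)))) M]
  rw [h1]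
  refine (norm_sum_le _ _).trans ?_
  have h4 : ∀ i ∈ range H, ‖∑ i' ∈ range H, e (-(((i : ℝ) - i') * c)) * TT f M ((i : ℝ) - i') β‖ ≤
      ‖TT f M 0 β‖ + H * R := by
    intro i hi
    refine (norm_sum_le _ _).trans ?_
    have h5 : ∀ i' ∈ range H, ‖e (-(((i : ℝ) - i') * c)) * TT f M ((i : ℝ) - i') β‖ ≤
        (if i' = i then ‖TT f M 0 β‖ else 0) + R := by
      intro i' hi'
      rw [norm_mul, norm_e, one_mul]
      by_cases h6 : i' = i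
      · rw [if_pos h6, h6, sub_self]
        linarith
      · rw [if_neg h6, zero_add]
        exact hR i (mem_range.1 hi) i' (mem_range.1 hi') (fun h7 => h6 h7.symm)
    refine (sum_le_sum h5).trans ?_
    rw [sum_add_distrib, sum_const, card_range, nsmul_eq_mul, sum_ite_eq', if_pos hi]
  refine (sum_le_sum h4).trans (le_of_eq ?_)
  rw [sum_const, card_range, nsmul_eq_mul]
  ring

/-- the sum of the geometric sums -/
lemma sum_TT (f : ℝ → ℝ) (M p : ℕ) (hM : 1 ≤ M) (hp : 1 ≤ p) :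
    ∑ i ∈ range M, ‖TT f M 0 (i * (1 / (2 * M)))‖ ^ (2 * p) ≤ 3 * 16 ^ p * (M : ℝ) ^ (2 * p) := by
  have hM1 : (1 : ℝ) ≤ M := by exact_mod_cast hM
  have hM0 : (0 : ℝ) < M := by linarith
  have e1 : range M = insert 0 (Ioo 0 M) := by
    ext i
    rw [mem_range, mem_insert, mem_Ioo]
    omega
  rw [e1, sum_insert (by simp)]
  have h0 : ‖TT f M 0 (((0 : ℕ) : ℝ) * (1 / (2 * M)))‖ ^ (2 * p) ≤ (M : ℝ) ^ (2 * p) :=
    pow_le_pow_left₀ (norm_nonneg _) (TT_le _ _ _ _) _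
  have h1 : ∀ i ∈ Ioo 0 M, ‖TT f M 0 ((i : ℝ) * (1 / (2 * M)))‖ ^ (2 * p) ≤
      16 ^ p * (M : ℝ) ^ (2 * p) * ((i : ℝ) ^ 2)⁻¹ := by
    intro i hi
    rw [mem_Ioo] at hi
    have hi0 : (0 : ℝ) < i := by exact_mod_cast hi.1
    have hi1 : (1 : ℝ) ≤ i := by exact_mod_cast hi.1
    have hiM : (i : ℝ) ≤ M := by exact_mod_cast hi.2.le
    have h2 := TT_zero f M (β := (i : ℝ) * (1 / (2 * M))) (by positivity) (by
      rw [mul_one_div, div_le_div_iff₀ (by positivity) (by norm_num)]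
      linarith)
    have h3 : 2 / ((i : ℝ) * (1 / (2 * M))) = 4 * M / i := by
      field_simp
      norm_num
    rw [h3] at h2
    calc ‖TT f M 0 ((i : ℝ) * (1 / (2 * M)))‖ ^ (2 * p) ≤ (4 * M / i) ^ (2 * p) :=
          pow_le_pow_left₀ (norm_nonneg _) h2 _
      _ = 16 ^ p * (M : ℝ) ^ (2 * p) * ((i : ℝ) ^ (2 * p))⁻¹ := by
          rw [div_pow, mul_pow, pow_mul (4 : ℝ) 2 p, div_eq_mul_inv]
          norm_num
      _ ≤ _ := by
          apply mul_le_mul_of_nonneg_left _ (by positivity)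
          apply inv_anti₀ (by positivity)
          exact pow_le_pow_right₀ hi1 (by omega)
  have a1 : ∑ i ∈ Ioo 0 M, ((i : ℝ) ^ 2)⁻¹ ≤ 2 := by
    have := sum_Ioo_inv_sq_le (α := ℝ) 0 M
    simpa using this
  have h4 : ∑ i ∈ Ioo 0 M, ‖TT f M 0 ((i : ℝ) * (1 / (2 * M)))‖ ^ (2 * p) ≤ 16 ^ p * (M : ℝ) ^ (2 * p) * 2 := by
    refine (sum_le_sum h1).trans ?_
    rw [← mul_sum]
    gcongr
  have h16 : (1 : ℝ) ≤ 16 ^ p := one_le_pow₀ (by norm_num)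
  have hMp : 0 < (M : ℝ) ^ (2 * p) := by positivity
  nlinarith

/-- the energy of the pairs with large weights -/
theorem frac_energy {k : ℕ} (hk : 1 ≤ k) {δ L F : ℝ} (hδ0 : 0 < δ) (hδ1 : δ ≤ 1) (hL : 1 ≤ L) {P : ℕ}
    (hPδ : 2 ≤ δ * P) {M : ℕ} (hM2 : 2 ≤ M) (hML : 4 * L ≤ (M : ℝ) ^ δ) (hF1 : (M : ℝ) ^ δ ≤ F) {H : ℕ} (hH1 : 1 ≤ H)
    (hHM : (H : ℝ) ^ (2 ^ (k + 1)) ≤ (M : ℝ) ^ δ) (hF : (H : ℝ) * F * (M : ℝ) ^ (k * δ) ≤ (M : ℝ) ^ (k + 1))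
    {φ : ℕ → ℝ → ℝ} (h : Smooth k L F M φ) (c : ℝ) {p : ℕ} (hp : p = 2 ^ (k - 1) * P)
    (A : Finset ((Fin p → Fin M) × (Fin p → Fin M)))
    (hA0 : ∀ q ∈ A, DD (fun j : Fin M => (M : ℝ) + 1 + ((j : ℕ) : ℝ)) q = 0)
    (hA1 : ∀ q ∈ A, ∀ i, (H : ℝ) ^ 2 / 4 ≤ ww (φ 0) M H c (q.1 i) ∧ (H : ℝ) ^ 2 / 4 ≤ ww (φ 0) M H c (q.2 i)) :
    (A.card : ℝ) * M ≤ 2 * 64 ^ p * (3 * 16 ^ p + (2 * CL k L) ^ P * (1 + Real.log M) ^ (k * P)) *
      ((M : ℝ) / H) ^ (2 * p) := by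
  classical
  have hM0 : (0 : ℝ) < M := by exact_mod_cast (by omega : 0 < M)
  have hM1 : (1 : ℝ) ≤ M := by exact_mod_cast (by omega : 1 ≤ M)
  have hlog : 0 ≤ Real.log M := Real.log_nonneg hM1
  have hH0 : (0 : ℝ) < H := by exact_mod_cast hH1
  have hCL := CL_pos (k := k) hL
  have hP0 : 0 < P := by
    rcases Nat.eq_zero_or_pos P with h0 | h0
    · rw [h0, Nat.cast_zero, mul_zero] at hPδ; linarith
    · exact h0
  obtain ⟨k', hk'⟩ : ∃ k', k = k' + 1 := ⟨k - 1, by omega⟩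
  have h2p : 2 * p = 2 ^ k * P := by
    rw [hp, hk', Nat.add_sub_cancel, pow_succ]; ring
  have hp1 : 1 ≤ p := by
    rw [hp]
    exact Nat.one_le_iff_ne_zero.2 (by positivity)
  obtain ⟨X, hX⟩ : ∃ X : ℝ, X = CL k L * (1 + Real.log M) ^ k * (2 * (M : ℝ) ^ (-δ)) := ⟨_, rfl⟩
  have hX0 : 0 < X := by rw [hX]; positivity
  obtain ⟨r, hr⟩ : ∃ r : ℝ, r = X ^ ((((2 ^ k : ℕ) : ℝ))⁻¹) := ⟨_, rfl⟩
  have hr0 : 0 < r := by rw [hr]; positivity
  have hrX : r ^ (2 ^ k) = X := by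
    rw [hr, Real.rpow_inv_natCast_pow hX0.le (by positivity)]
  -- the sums with nonzero frequency
  have hTT : ∀ β : ℝ, ∀ i < H, ∀ i' < H, i ≠ i' → ‖TT (φ 0) M ((i : ℝ) - i') β‖ ≤ M * r := by
    intro β i hi i' hi' hne
    have h1 := TT_bound hk hδ0 hδ1 hL hM2 hML hF1 hF h β hi hi' hne
    rw [← hX, ← hrX] at h1
    have h2 := (pow_le_pow_iff_left₀ (by positivity) hr0.le (by positivity)).1 h1
    rw [div_le_iff₀ hM0] at h2
    linarith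
  have hSW : ∀ β : ℝ, ‖SW (ww (φ 0) M H c) (fun j : Fin M => (M : ℝ) + 1 + ((j : ℕ) : ℝ)) β‖ ^ (2 * p) ≤
      4 ^ p * ((H : ℝ) ^ (2 * p) * ‖TT (φ 0) M 0 β‖ ^ (2 * p) + ((H : ℝ) ^ 2 * (M * r)) ^ (2 * p)) := by
    intro β
    have h1 := SW_le (φ 0) M H c β (M * r) (by positivity) (hTT β)
    calc _ ≤ (H * ‖TT (φ 0) M 0 β‖ + H ^ 2 * (M * r)) ^ (2 * p) := pow_le_pow_left₀ (norm_nonneg _) h1 _
      _ ≤ 2 ^ (2 * p - 1) * ((H * ‖TT (φ 0) M 0 β‖) ^ (2 * p) + (H ^ 2 * (M * r)) ^ (2 * p)) :=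
          add_pow_le (by positivity) (by positivity) _
      _ ≤ 4 ^ p * ((H * ‖TT (φ 0) M 0 β‖) ^ (2 * p) + (H ^ 2 * (M * r)) ^ (2 * p)) := by
          apply mul_le_mul_of_nonneg_right _ (by positivity)
          calc (2 : ℝ) ^ (2 * p - 1) ≤ 2 ^ (2 * p) := pow_le_pow_right₀ (by norm_num) (by omega)
            _ = 4 ^ p := by rw [pow_mul]; norm_num
      _ = _ := by rw [mul_pow (H : ℝ) (‖TT (φ 0) M 0 β‖)]
  have hw0 : ∀ j, 0 ≤ ww (φ 0) M H c j := fun j => by unfold ww; positivity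
  have hcount := wcount_le (p := p) (ww (φ 0) M H c) (fun j : Fin M => (M : ℝ) + 1 + ((j : ℕ) : ℝ)) hw0 M (by omega)
    (1 / (2 * M)) A hA0
  have hlow : (A.card : ℝ) * ((H : ℝ) ^ 2 / 4) ^ (2 * p) ≤
      ∑ q ∈ A, (∏ i, ww (φ 0) M H c (q.1 i)) * ∏ i, ww (φ 0) M H c (q.2 i) := by
    rw [← nsmul_eq_mul, ← sum_const]
    apply sum_le_sum
    intro q hq
    have e1 : ((H : ℝ) ^ 2 / 4) ^ p ≤ ∏ i, ww (φ 0) M H c (q.1 i) := by
      calc ((H : ℝ) ^ 2 / 4) ^ p = ∏ _i : Fin p, (H : ℝ) ^ 2 / 4 := by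
            rw [prod_const, card_univ, Fintype.card_fin]
        _ ≤ _ := prod_le_prod (fun _ _ => by positivity) fun i _ => (hA1 q hq i).1
    have e2 : ((H : ℝ) ^ 2 / 4) ^ p ≤ ∏ i, ww (φ 0) M H c (q.2 i) := by
      calc ((H : ℝ) ^ 2 / 4) ^ p = ∏ _i : Fin p, (H : ℝ) ^ 2 / 4 := by
            rw [prod_const, card_univ, Fintype.card_fin]
        _ ≤ _ := prod_le_prod (fun _ _ => by positivity) fun i _ => (hA1 q hq i).2
    calc ((H : ℝ) ^ 2 / 4) ^ (2 * p) = ((H : ℝ) ^ 2 / 4) ^ p * ((H : ℝ) ^ 2 / 4) ^ p := by rw [two_mul, pow_add]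
      _ ≤ _ := mul_le_mul e1 e2 (by positivity) (prod_nonneg fun _ _ => hw0 _)
  have hsum : ∑ i ∈ range M, ‖SW (ww (φ 0) M H c) (fun j : Fin M => (M : ℝ) + 1 + ((j : ℕ) : ℝ))
      (i * (1 / (2 * M)))‖ ^ (2 * p) ≤
      4 ^ p * ((H : ℝ) ^ (2 * p) * (3 * 16 ^ p * (M : ℝ) ^ (2 * p)) + M * ((H : ℝ) ^ 2 * (M * r)) ^ (2 * p)) := by
    refine (sum_le_sum fun i _ => hSW _).trans ?_
    rw [← mul_sum, sum_add_distrib, ← mul_sum, sum_const, card_range, nsmul_eq_mul]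
    have := sum_TT (φ 0) M p (by omega) hp1
    gcongr
  -- the size of `r`
  have hrp : (H : ℝ) ^ (2 * p) * r ^ (2 * p) * M ≤ (2 * CL k L) ^ P * (1 + Real.log M) ^ (k * P) := by
    have e1 : r ^ (2 * p) = (2 * CL k L) ^ P * (1 + Real.log M) ^ (k * P) * (M : ℝ) ^ (-(δ * P)) := by
      rw [h2p, pow_mul, hrX, hX, mul_pow, mul_pow, mul_pow, ← pow_mul, ← Real.rpow_natCast ((M : ℝ) ^ (-δ)),
        ← Real.rpow_mul hM0.le, mul_pow]
      have e3 : -δ * (P : ℝ) = -(δ * P) := by ring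
      rw [e3]
      ring
    have e2 : (H : ℝ) ^ (2 * p) * M ≤ (M : ℝ) ^ (δ * P) := by
      have e3 : ((H : ℝ) ^ (2 * p)) ^ 2 ≤ (M : ℝ) ^ (δ * P) := by
        calc ((H : ℝ) ^ (2 * p)) ^ 2 = ((H : ℝ) ^ (2 ^ (k + 1))) ^ P := by
              rw [h2p, ← pow_mul, ← pow_mul, pow_succ]
              congr 1
              ring
          _ ≤ ((M : ℝ) ^ δ) ^ P := pow_le_pow_left₀ (by positivity) hHM _
          _ = _ := by rw [← Real.rpow_natCast, ← Real.rpow_mul hM0.le]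
      have e4 : (M : ℝ) ^ 2 ≤ (M : ℝ) ^ (δ * P) := by
        calc (M : ℝ) ^ 2 = (M : ℝ) ^ (2 : ℝ) := by rw [← Real.rpow_natCast]; norm_num
          _ ≤ _ := Real.rpow_le_rpow_of_exponent_le hM1 hPδ
      have e5 : ((H : ℝ) ^ (2 * p) * M) ^ 2 ≤ ((M : ℝ) ^ (δ * P)) ^ 2 := by
        rw [mul_pow, sq ((M : ℝ) ^ (δ * P))]
        gcongr
      exact (pow_le_pow_iff_left₀ (by positivity) (by positivity) (by norm_num)).1 e5
    rw [e1]
    calc (H : ℝ) ^ (2 * p) * ((2 * CL k L) ^ P * (1 + Real.log M) ^ (k * P) * (M : ℝ) ^ (-(δ * P))) * M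
        = (2 * CL k L) ^ P * (1 + Real.log M) ^ (k * P) * (((H : ℝ) ^ (2 * p) * M) * (M : ℝ) ^ (-(δ * P))) := by ring
      _ ≤ (2 * CL k L) ^ P * (1 + Real.log M) ^ (k * P) * ((M : ℝ) ^ (δ * P) * (M : ℝ) ^ (-(δ * P))) := by gcongr
      _ = _ := by rw [← Real.rpow_add hM0, add_neg_cancel, Real.rpow_zero, mul_one]
  -- the end
  have hH4 : 0 < ((H : ℝ) ^ 2 / 4) ^ (2 * p) := by positivity
  have h1 : (A.card : ℝ) * ((H : ℝ) ^ 2 / 4) ^ (2 * p) ≤ 2 / M * (4 ^ p * ((H : ℝ) ^ (2 * p) *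
      (3 * 16 ^ p * (M : ℝ) ^ (2 * p)) + M * ((H : ℝ) ^ 2 * (M * r)) ^ (2 * p))) := by
    refine hlow.trans (hcount.trans ?_)
    gcongr
  have h2 : (A.card : ℝ) * M ≤ 2 * 64 ^ p * (3 * 16 ^ p + (H : ℝ) ^ (2 * p) * r ^ (2 * p) * M) *
      ((M : ℝ) / H) ^ (2 * p) := by
    have e1 : (A.card : ℝ) ≤ 2 / M * (4 ^ p * ((H : ℝ) ^ (2 * p) *
      (3 * 16 ^ p * (M : ℝ) ^ (2 * p)) + M * ((H : ℝ) ^ 2 * (M * r)) ^ (2 * p))) / ((H : ℝ) ^ 2 / 4) ^ (2 * p) := by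
      rw [le_div_iff₀ hH4]
      exact h1
    calc (A.card : ℝ) * M ≤ 2 / M * (4 ^ p * ((H : ℝ) ^ (2 * p) *
      (3 * 16 ^ p * (M : ℝ) ^ (2 * p)) + M * ((H : ℝ) ^ 2 * (M * r)) ^ (2 * p))) / ((H : ℝ) ^ 2 / 4) ^ (2 * p) * M := by
          gcongr
      _ = 2 * (4 ^ p * 16 ^ p) * (3 * 16 ^ p + (H : ℝ) ^ (2 * p) * r ^ (2 * p) * M) * ((M : ℝ) / H) ^ (2 * p) := by
          have e16 : (16 : ℝ) ^ p = 4 ^ (2 * p) := by rw [pow_mul]; norm_num
          rw [e16]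
          have eH : ((H : ℝ) ^ 2) ^ (2 * p) = (H : ℝ) ^ (2 * p) * (H : ℝ) ^ (2 * p) := by
            rw [← mul_pow, sq]
          simp only [div_pow, mul_pow]
          field_simp
          rw [eH]
          ring
      _ = _ := by
          rw [← mul_pow]
          norm_num
  refine h2.trans ?_
  gcongr

end Pool.Agent.Helper4.SP
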