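import Pool.Agent.Helper4.SP.Frac

/-!
The integers `n` with the fractional part of `f(n)` in a short interval form a family with small energy: the input for
the general theorems on thin families.
-/

set_option autoImplicit false

namespace Pool.Agent.Helper4.SP

open Finset
open Pool.Agent.H469R2.NK (e norm_e e_add conj_e e_zero Cq Cq_pos)
open Pool.Agent.TH212.EH (En)
open Pool.Agent.Helper3K9.PS (DD re_e)

/-- `φ m` is the `m`-th derivative of `φ 0` on `[N, 2 N + 1]`, `m ≤ k + 2`; `N ^ (k + 1) |φ (k + 1)|` is between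
`F / log ^ C N` and `F log ^ C N`; `φ (k + 2)` does not change the sign. -/
structure PhaseF (k C N : ℕ) (F : ℝ) (φ : ℕ → ℝ → ℝ) : Prop where
  der : ∀ m ≤ k + 1, ∀ t ∈ Set.Icc (N : ℝ) (2 * N + 1), HasDerivAt (φ m) (φ (m + 1) t) t
  low : ∀ t ∈ Set.Icc (N : ℝ) (2 * N + 1), F ≤ (N : ℝ) ^ (k + 1) * |φ (k + 1) t| * Real.log N ^ C
  high : ∀ t ∈ Set.Icc (N : ℝ) (2 * N + 1), (N : ℝ) ^ (k + 1) * |φ (k + 1) t| ≤ F * Real.log N ^ C
  mono : (∀ t ∈ Set.Icc (N : ℝ) (2 * N + 1), φ (k + 2) t ≤ 0) ∨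
    (∀ t ∈ Set.Icc (N : ℝ) (2 * N + 1), 0 ≤ φ (k + 2) t)

lemma PhaseF.smooth {k C M : ℕ} {F : ℝ} {φ : ℕ → ℝ → ℝ} (h : PhaseF k C M F φ) (hF : 0 < F)
    (hL : 0 < Real.log M) : Smooth k (Real.log M ^ C) F M φ := by
  have hL' : 0 < Real.log M ^ C := by positivity
  have hne : ∀ t ∈ Set.Icc (M : ℝ) (2 * M + 1), φ (k + 1) t ≠ 0 := by
    intro t ht h0
    have := h.low t ht
    rw [h0, abs_zero, mul_zero, zero_mul] at this
    linarith
  have hcont : ContinuousOn (φ (k + 1)) (Set.Icc (M : ℝ) (2 * M + 1)) :=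
    fun t ht => (h.der (k + 1) le_rfl t ht).continuousAt.continuousWithinAt
  have hord := (isPreconnected_Icc.image _ hcont).ordConnected
  have hsign : (∀ t ∈ Set.Icc (M : ℝ) (2 * M + 1), 0 < φ (k + 1) t) ∨
      (∀ t ∈ Set.Icc (M : ℝ) (2 * M + 1), φ (k + 1) t < 0) := by
    by_contra hcon
    rw [not_or] at hcon
    obtain ⟨h1, h2⟩ := hcon
    push Not at h1 h2
    obtain ⟨s, hs, hs1⟩ := h1
    obtain ⟨t, ht, ht1⟩ := h2
    have h0 : (0 : ℝ) ∈ φ (k + 1) '' Set.Icc (M : ℝ) (2 * M + 1) :=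
      hord.out ⟨s, hs, rfl⟩ ⟨t, ht, rfl⟩ ⟨hs1, ht1⟩
    obtain ⟨u, hu, hu1⟩ := h0
    exact hne u hu hu1
  refine ⟨h.der, ?_, h.mono⟩
  rcases hsign with hs | hs
  · left
    intro t ht
    have h1 := h.low t ht
    have h2 := h.high t ht
    rw [abs_of_pos (hs t ht)] at h1 h2
    refine ⟨?_, ?_⟩
    · rw [div_le_iff₀ hL']; exact h1
    · rw [mul_comm (Real.log M ^ C)]; exact h2
  · right
    intro t ht
    have h1 := h.low t ht
    have h2 := h.high t ht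
    rw [abs_of_neg (hs t ht), mul_neg] at h1 h2
    refine ⟨?_, ?_⟩
    · rw [div_le_iff₀ hL']; exact h1
    · rw [mul_comm (Real.log M ^ C)]; exact h2

lemma e_int (z : ℤ) : e z = 1 := by
  unfold e
  rw [Complex.exp_eq_one_iff]
  exact ⟨z, by push_cast; ring⟩

/-- the majorant of the interval -/
lemma near {H : ℕ} (_hH : 1 ≤ H) {x c lam : ℝ} (h : Int.fract (x - c) ≤ lam) (hl : H = 1 ∨ 3 * H * lam ≤ 1) :
    (H : ℝ) / 2 ≤ ‖∑ i ∈ range H, e (i * (x - (c + lam / 2)))‖ := by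
  rcases hl with rfl | hl
  · rw [sum_range_one, Nat.cast_zero, zero_mul, e_zero, norm_one]
    norm_num
  · obtain ⟨s, hs⟩ : ∃ s : ℝ, s = Int.fract (x - c) - lam / 2 := ⟨_, rfl⟩
    have hlam : 0 ≤ lam := (Int.fract_nonneg _).trans h
    have hs1 : |s| ≤ lam / 2 := by
      rw [hs, abs_le]
      constructor <;> linarith [Int.fract_nonneg (x - c)]
    have hx : x - (c + lam / 2) = ⌊x - c⌋ + s := by
      have := Int.floor_add_fract (x - c)
      rw [hs]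
      linarith
    have h1 : ∀ i ∈ range H, e (i * (x - (c + lam / 2))) = e (i * s) := by
      intro i _
      have h2 : (i : ℝ) * (x - (c + lam / 2)) = (((i : ℤ) * ⌊x - c⌋ : ℤ) : ℝ) + i * s := by
        rw [hx]; push_cast; ring
      rw [h2, e_add, e_int, one_mul]
    rw [sum_congr rfl h1]
    refine le_trans ?_ (Complex.re_le_norm _)
    rw [Complex.re_sum]
    calc (H : ℝ) / 2 = ∑ _i ∈ range H, (1 : ℝ) / 2 := by
          rw [sum_const, card_range, nsmul_eq_mul]; ring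
      _ ≤ _ := by
        apply sum_le_sum
        intro i hi
        rw [mem_range] at hi
        have hpi := Real.pi_pos
        have hi0 : (0 : ℝ) ≤ i := Nat.cast_nonneg _
        have hiH : (i : ℝ) ≤ H := by exact_mod_cast hi.le
        rw [re_e, ← Real.cos_pi_div_three, ← Real.cos_abs (2 * Real.pi * (i * s))]
        apply Real.cos_le_cos_of_nonneg_of_le_pi (abs_nonneg _) (by linarith)
        rw [abs_mul, abs_mul, abs_mul, abs_two, abs_of_pos hpi, abs_of_nonneg hi0]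
        have h3 : (i : ℝ) * |s| ≤ H * (lam / 2) := by gcongr
        nlinarith

lemma En_le_card {p M : ℕ} {ι : Type} [Fintype ι] (v : ι → ℤ) (g : ι → Fin M) (hg : Function.Injective g)
    (A : Finset ((Fin p → Fin M) × (Fin p → Fin M)))
    (hA : ∀ q : (Fin p → ι) × (Fin p → ι), ∑ j, v (q.1 j) = ∑ j, v (q.2 j) →
      ((fun j => g (q.1 j), fun j => g (q.2 j)) : (Fin p → Fin M) × (Fin p → Fin M)) ∈ A) : En p v ≤ A.card := by
  classical
  unfold En
  rw [Nat.card_eq_fintype_card, Fintype.card_subtype]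
  apply card_le_card_of_injOn (fun q => ((fun j => g (q.1 j), fun j => g (q.2 j)) :
    (Fin p → Fin M) × (Fin p → Fin M)))
  · intro q hq
    rw [mem_coe, mem_filter] at hq
    rw [mem_coe]
    exact hA q hq.2
  · intro q _ q' _ h2
    simp only [Prod.mk.injEq] at h2
    apply Prod.ext
    · funext j
      exact hg (congrFun h2.1 j)
    · funext j
      exact hg (congrFun h2.2 j)

lemma alg {a1 a2 a3 a4 Z W L : ℝ} (h1 : 0 ≤ a1) (h2 : 0 ≤ a2) (h4 : 0 ≤ a4) (hZ : 1 ≤ Z) (hW : 0 ≤ W)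
    (h : a1 * (a2 + a3) * a4 ≤ L) : a1 * (a2 + a3 * Z) * a4 * W ≤ L * (Z * W) := by
  have e5 : a2 ≤ a2 * Z := le_mul_of_one_le_right h2 hZ
  calc a1 * (a2 + a3 * Z) * a4 * W ≤ a1 * (a2 * Z + a3 * Z) * a4 * W := by gcongr
    _ = (a1 * (a2 + a3) * a4) * (Z * W) := by ring
    _ ≤ L * (Z * W) := mul_le_mul_of_nonneg_right h (by positivity)

/-- the input for the general theorems on thin families -/
lemma fhyp (k : ℕ) (hk : 1 ≤ k) (δ : ℝ) (hδ0 : 0 < δ) (hδ1 : δ ≤ 1) (κ : ℤ) (hκ : κ ≠ 0) (B C : ℕ) :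
    ∃ p B' C' N₀ : ℕ, B ≤ B' ∧ ∀ N : ℕ, N₀ ≤ N → ∀ F : ℝ, (N : ℝ) ^ δ ≤ F → F ≤ (N : ℝ) ^ ((k : ℝ) + 1 - δ) →
      ∀ φ : ℕ → ℝ → ℝ, PhaseF k C N F φ → ∀ c lam : ℝ, (N : ℝ) ^ (-(δ / (k * 2 ^ (k + 2)))) ≤ lam →
      ∀ S : Finset ℕ, S ⊆ Ioc N (2 * N) → (∀ n ∈ S, Int.fract (φ 0 (n : ℝ) - c) ≤ lam) →
      lam * N ≤ S.card * Real.log N ^ C → ∀ c₀ : ℤ, |c₀| ≤ B * (N : ℤ) →
      (∀ i : {n // n ∈ S}, |c₀ + κ * ((i.1 : ℕ) : ℤ)| ≤ B' * (N : ℤ)) ∧
      (En p (fun i : {n // n ∈ S} => c₀ + κ * ((i.1 : ℕ) : ℤ)) : ℝ) * N ≤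
        Real.log N ^ C' * (Fintype.card {n // n ∈ S} : ℝ) ^ (2 * p) := by
  classical
  have hkR : (1 : ℝ) ≤ k := by exact_mod_cast hk
  have hk0 : (0 : ℝ) < k := by linarith
  obtain ⟨δ', hδ'⟩ : ∃ δ' : ℝ, δ' = δ / (2 * k) := ⟨_, rfl⟩
  have hδ'0 : 0 < δ' := by rw [hδ']; positivity
  have hδ'δ : δ' ≤ δ / 2 := by
    rw [hδ']
    apply div_le_div_of_nonneg_left hδ0.le (by norm_num)
    linarith
  have hδ'1 : δ' ≤ 1 := by linarith
  have hkδ : (k : ℝ) * δ' = δ / 2 := by rw [hδ']; field_simp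
  obtain ⟨P, hP⟩ := exists_nat_ge (2 / δ')
  have hPδ : 2 ≤ δ' * P := by
    rw [div_le_iff₀ hδ'0] at hP
    linarith
  obtain ⟨V, hV⟩ : ∃ V : ℝ, V = Cq k * (4 + 2 * 4 ^ k) := ⟨_, rfl⟩
  have hV0 : 0 < V := by rw [hV]; have := Cq_pos k; positivity
  obtain ⟨p, hp⟩ : ∃ p, p = 2 ^ (k - 1) * P := ⟨_, rfl⟩
  obtain ⟨E1, hE1⟩ := exists_nat_ge (2 * 64 ^ p * (3 * 16 ^ p + (2 * V) ^ P * 2 ^ (k * P)) * 36 ^ p)
  -- large `N`
  have ht1 : Filter.Tendsto (fun N : ℕ => Real.log (N : ℝ)) Filter.atTop Filter.atTop :=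
    Real.tendsto_log_atTop.comp tendsto_natCast_atTop_atTop
  have ht2 : ∀ᶠ N : ℕ in Filter.atTop, 4 * Real.log N ^ C ≤ (N : ℝ) ^ δ' := by
    have h1 : (fun x : ℝ => Real.log x ^ C) =o[Filter.atTop] fun x => x ^ δ' := by
      have := isLittleO_log_rpow_rpow_atTop (s := δ') (C : ℝ) hδ'0
      simpa using this
    have h2 := (h1.bound (c := 1 / 4) (by norm_num))
    have h3 := tendsto_natCast_atTop_atTop (R := ℝ) |>.eventually h2
    filter_upwards [h3, Filter.eventually_ge_atTop 1] with N hN hN1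
    have hN1' : (1 : ℝ) ≤ N := by exact_mod_cast hN1
    rw [Real.norm_of_nonneg (pow_nonneg (Real.log_nonneg hN1') _), Real.norm_of_nonneg (by positivity)] at hN
    linarith
  obtain ⟨n1, h1⟩ := (Filter.eventually_atTop.1 (ht1.eventually_ge_atTop ((E1 : ℝ) + 1)))
  obtain ⟨n2, h2⟩ := Filter.eventually_atTop.1 ht2
  refine ⟨p, B + κ.natAbs * 2, C * ((k + 1) * P) + k * P + C * (2 * p) + 1, n1 + n2 + 2,
    Nat.le_add_right _ _, fun N hN F hF1 hF2 φ hφ c lam hlam S hS hSI hSc c₀ hc₀ => ?_⟩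
  have hL := h1 N (by omega)
  have hR := h2 N (by omega)
  have hN1 : 2 ≤ N := by omega
  have hNR : (2 : ℝ) ≤ N := by exact_mod_cast hN1
  have hN0 : (0 : ℝ) < N := by linarith
  have hN11 : (1 : ℝ) ≤ N := by linarith
  have hF0 : 0 < F := lt_of_lt_of_le (by positivity) hF1
  have hsm := hφ.smooth hF0 (Real.log_pos (by linarith))
  obtain ⟨L, hLe⟩ : ∃ L, L = Real.log (N : ℝ) := ⟨_, rfl⟩
  rw [← hLe] at hL hSc hR hsm ⊢
  have hL1 : 1 ≤ L := by have : (0 : ℝ) ≤ E1 := Nat.cast_nonneg _; linarith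
  have hE1L : (E1 : ℝ) ≤ L := by linarith
  have hLC1 : 1 ≤ L ^ C := one_le_pow₀ hL1
  have hF1' : (N : ℝ) ^ δ' ≤ F := (Real.rpow_le_rpow_of_exponent_le hN11 (by linarith)).trans hF1
  have hlam0 : 0 < lam := lt_of_lt_of_le (by positivity) hlam
  -- the length
  obtain ⟨H, hHe⟩ : ∃ H : ℕ, H = max 1 ⌊1 / (3 * lam)⌋₊ := ⟨_, rfl⟩
  have hH1 : 1 ≤ H := by rw [hHe]; exact le_max_left _ _
  have hH0 : (0 : ℝ) < H := by exact_mod_cast hH1
  have hl : H = 1 ∨ 3 * H * lam ≤ 1 := by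
    rcases le_total 1 ⌊1 / (3 * lam)⌋₊ with h3 | h3
    · right
      rw [hHe, max_eq_right h3]
      have h4 := Nat.floor_le (by positivity : 0 ≤ 1 / (3 * lam))
      rw [le_div_iff₀ (by positivity)] at h4
      linarith
    · left
      rw [hHe, max_eq_left h3]
  have hHlow : 1 / H ≤ 6 * lam := by
    rw [div_le_iff₀ hH0]
    have h4 := Nat.lt_floor_add_one (1 / (3 * lam))
    have h5 : (⌊1 / (3 * lam)⌋₊ : ℝ) ≤ H := by
      rw [hHe]; exact_mod_cast le_max_right _ _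
    have h6 : (1 : ℝ) ≤ H := by exact_mod_cast hH1
    have h7 : 1 / (3 * lam) ≤ 2 * H := by linarith
    rw [div_le_iff₀ (by positivity)] at h7
    linarith
  have hHup : (H : ℝ) ≤ (N : ℝ) ^ (δ / (k * 2 ^ (k + 2))) := by
    rcases le_total 1 ⌊1 / (3 * lam)⌋₊ with h3 | h3
    · rw [hHe, max_eq_right h3]
      have h4 := Nat.floor_le (by positivity : 0 ≤ 1 / (3 * lam))
      refine h4.trans ?_
      rw [Real.rpow_neg hN0.le] at hlam
      have h5 : 0 < (N : ℝ) ^ (δ / (k * 2 ^ (k + 2))) := by positivity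
      rw [inv_le_iff_one_le_mul₀ h5] at hlam
      rw [div_le_iff₀ (by positivity)]
      nlinarith
    · rw [hHe, max_eq_left h3, Nat.cast_one]
      exact Real.one_le_rpow hN11 (by positivity)
  have hHM : (H : ℝ) ^ (2 ^ (k + 1)) ≤ (N : ℝ) ^ δ' := by
    calc (H : ℝ) ^ (2 ^ (k + 1)) ≤ ((N : ℝ) ^ (δ / (k * 2 ^ (k + 2)))) ^ (2 ^ (k + 1)) :=
          pow_le_pow_left₀ hH0.le hHup _
      _ = (N : ℝ) ^ δ' := by
          rw [← Real.rpow_natCast, ← Real.rpow_mul hN0.le]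
          congr 1
          rw [hδ']
          push_cast
          rw [pow_succ (2 : ℝ) (k + 1)]
          field_simp
  have hF : (H : ℝ) * F * (N : ℝ) ^ (k * δ') ≤ (N : ℝ) ^ (k + 1) := by
    rw [hkδ]
    have h3 : (H : ℝ) ≤ (N : ℝ) ^ (δ / 2) := by
      refine hHup.trans (Real.rpow_le_rpow_of_exponent_le hN11 ?_)
      apply div_le_div_of_nonneg_left hδ0.le (by norm_num)
      have h4 : (2 : ℝ) ≤ 2 ^ (k + 2) := by
        calc (2 : ℝ) = 2 ^ 1 := by norm_num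
          _ ≤ 2 ^ (k + 2) := pow_le_pow_right₀ (by norm_num) (by omega)
      nlinarith
    calc (H : ℝ) * F * (N : ℝ) ^ (δ / 2) ≤ (N : ℝ) ^ (δ / 2) * (N : ℝ) ^ ((k : ℝ) + 1 - δ) * (N : ℝ) ^ (δ / 2) := by
          gcongr
      _ = (N : ℝ) ^ (k + 1) := by
          rw [← Real.rpow_add hN0, ← Real.rpow_add hN0, ← Real.rpow_natCast]
          congr 1
          push_cast
          ring
  constructor
  · rintro ⟨n, hn⟩
    have hn2 := hS hn
    rw [mem_Ioc] at hn2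
    have hfl : |((n : ℕ) : ℤ)| ≤ 2 * (N : ℤ) := by
      rw [abs_of_nonneg (Int.natCast_nonneg _)]
      exact_mod_cast hn2.2
    simp only
    calc |c₀ + κ * (n : ℤ)| ≤ |c₀| + |κ * (n : ℤ)| := abs_add_le _ _
      _ = |c₀| + |κ| * |(n : ℤ)| := by rw [abs_mul]
      _ ≤ B * N + |κ| * (2 * (N : ℤ)) := by
          apply add_le_add hc₀
          exact mul_le_mul_of_nonneg_left hfl (abs_nonneg _)
      _ = _ := by
          push_cast
          ring
  · -- the set of solutions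
    obtain ⟨A, hA⟩ : ∃ A : Finset ((Fin p → Fin N) × (Fin p → Fin N)),
        A = univ.filter (fun q => DD (fun j : Fin N => (N : ℝ) + 1 + ((j : ℕ) : ℝ)) q = 0 ∧
          ∀ i, N + 1 + (q.1 i : ℕ) ∈ S ∧ N + 1 + (q.2 i : ℕ) ∈ S) := ⟨_, rfl⟩
    have hlt : ∀ i : {n // n ∈ S}, i.1 - (N + 1) < N := by
      intro i
      have := hS i.2
      rw [mem_Ioc] at this
      omega
    have he2 : ∀ i : {n // n ∈ S}, N + 1 + (i.1 - (N + 1)) = i.1 := by
      intro i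
      have := hS i.2
      rw [mem_Ioc] at this
      omega
    have he3 : ∀ i : {n // n ∈ S}, (N : ℝ) + 1 + ((i.1 - (N + 1) : ℕ) : ℝ) = ((i.1 : ℕ) : ℝ) := by
      intro i
      exact_mod_cast congrArg (Nat.cast (R := ℝ)) (he2 i)
    have hsub : En p (fun i : {n // n ∈ S} => c₀ + κ * ((i.1 : ℕ) : ℤ)) ≤ A.card := by
      refine En_le_card _ (fun i : {n // n ∈ S} => (⟨i.1 - (N + 1), hlt i⟩ : Fin N)) ?_ A ?_
      · intro i i' h
        rw [Fin.mk.injEq] at h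
        have h3 := he2 i
        have h4 := he2 i'
        apply Subtype.ext
        omega
      · intro q hq
        rw [hA, mem_filter]
        refine ⟨mem_univ _, ?_, fun i => ⟨?_, ?_⟩⟩
        · rw [sum_add_distrib, sum_add_distrib, ← mul_sum, ← mul_sum] at hq
          have h3 := mul_left_cancel₀ hκ (add_left_cancel hq)
          unfold DD
          simp only [he3]
          rw [sub_eq_zero]
          exact_mod_cast h3
        · simp only [he2]
          exact (q.1 i).2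
        · simp only [he2]
          exact (q.2 i).2
    have hw : ∀ j : Fin N, N + 1 + (j : ℕ) ∈ S → (H : ℝ) ^ 2 / 4 ≤ ww (φ 0) N H (c + lam / 2) j := by
      intro j hj
      have h3 := near hH1 (hSI _ hj) hl
      unfold ww
      have h4 : ((N + 1 + (j : ℕ) : ℕ) : ℝ) = (N : ℝ) + 1 + ((j : ℕ) : ℝ) := by push_cast; ring
      rw [h4] at h3
      calc (H : ℝ) ^ 2 / 4 = ((H : ℝ) / 2) ^ 2 := by ring
        _ ≤ _ := pow_le_pow_left₀ (by positivity) h3 _
    have hen := frac_energy hk hδ'0 hδ'1 hLC1 hPδ hN1 hR hF1' hH1 hHM hF hsm (c + lam / 2) hp A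
      (fun q hq => by
        rw [hA, mem_filter] at hq
        exact hq.2.1)
      (fun q hq i => by
        rw [hA, mem_filter] at hq
        exact ⟨hw _ (hq.2.2 i).1, hw _ (hq.2.2 i).2⟩)
    rw [Fintype.card_coe]
    have hsubR : (En p (fun i : {n // n ∈ S} => c₀ + κ * ((i.1 : ℕ) : ℤ)) : ℝ) ≤ A.card := by exact_mod_cast hsub
    have hCL : CL k (L ^ C) ≤ V * (L ^ C) ^ (k + 1) := by rw [hV]; exact CL_le k hLC1
    have hCL0 := CL_pos (k := k) hLC1
    have hlogN0 : 0 ≤ L := by linarith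
    have hNH : (N : ℝ) / H ≤ 6 * (S.card * L ^ C) := by
      calc (N : ℝ) / H = N * (1 / H) := by ring
        _ ≤ N * (6 * lam) := by gcongr
        _ = 6 * (lam * N) := by ring
        _ ≤ _ := by gcongr
    obtain ⟨Z, hZ⟩ : ∃ Z : ℝ, Z = L ^ (C * ((k + 1) * P) + k * P) := ⟨_, rfl⟩
    have hZ1 : 1 ≤ Z := by rw [hZ]; exact one_le_pow₀ hL1
    calc (En p (fun i : {n // n ∈ S} => c₀ + κ * ((i.1 : ℕ) : ℤ)) : ℝ) * N ≤ A.card * N := by gcongr
      _ ≤ 2 * 64 ^ p * (3 * 16 ^ p + (2 * CL k (L ^ C)) ^ P * (1 + Real.log N) ^ (k * P)) *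
          ((N : ℝ) / H) ^ (2 * p) := hen
      _ ≤ 2 * 64 ^ p * (3 * 16 ^ p + (2 * (V * (L ^ C) ^ (k + 1))) ^ P * (2 * L) ^ (k * P)) *
          (6 * (S.card * L ^ C)) ^ (2 * p) := by
          have e3 : 1 + Real.log N ≤ 2 * L := by rw [← hLe]; linarith
          have e4 : 0 ≤ 1 + Real.log N := by rw [← hLe]; linarith
          gcongr
      _ = 2 * 64 ^ p * (3 * 16 ^ p + (2 * V) ^ P * 2 ^ (k * P) * Z) * 36 ^ p *
          (L ^ (C * (2 * p)) * (S.card : ℝ) ^ (2 * p)) := by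
          have e36 : (6 : ℝ) ^ (2 * p) = 36 ^ p := by rw [pow_mul]; norm_num
          have e6 : (2 * (V * (L ^ C) ^ (k + 1))) ^ P * (2 * L) ^ (k * P) = (2 * V) ^ P * 2 ^ (k * P) * Z := by
            have e8 : (2 * (V * (L ^ C) ^ (k + 1))) ^ P = (2 * V) ^ P * L ^ (C * ((k + 1) * P)) := by
              rw [← mul_assoc, mul_pow, ← pow_mul, ← pow_mul]
            rw [e8, mul_pow 2 L, hZ, pow_add]
            ring
          have e7 : (6 * ((S.card : ℝ) * L ^ C)) ^ (2 * p) = 36 ^ p * (L ^ (C * (2 * p)) * (S.card : ℝ) ^ (2 * p)) := by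
            rw [mul_pow, mul_pow, e36, ← pow_mul]
            ring
          rw [e6, e7]
          ring
      _ ≤ L * (Z * (L ^ (C * (2 * p)) * (S.card : ℝ) ^ (2 * p))) :=
          alg (by positivity) (by positivity) (by positivity) hZ1 (by positivity) (hE1.trans hE1L)
      _ = _ := by
          rw [pow_succ L, pow_add L (C * ((k + 1) * P) + k * P), ← hZ]
          ring

end Pool.Agent.Helper4.SP
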