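import Pool.Agent.Helper4.SP.EnergyN

/-!
The energies of the families of smooth values and of short fractional parts, up to constants.
-/

set_option autoImplicit false

namespace Pool.Agent.Helper4.SP

open Finset
open Pool.Agent.H469R2.NK (e norm_e e_add conj_e e_zero Cq Cq_pos)
open Pool.Agent.TH212.EH (En)
open Pool.Agent.Helper3K9.PS (DD)

/-- the energy of the pairs with large weights -/
theorem frac_energyN {k : ℕ} (hk : 1 ≤ k) {δ L F : ℝ} (hδ0 : 0 < δ) (hδ1 : δ ≤ 1) (hL : 1 ≤ L) {P : ℕ}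
    (hPδ : 4 ≤ δ * P) {M : ℕ} (hM2 : 2 ≤ M) (hML : 4 * L ≤ (M : ℝ) ^ δ) (hF1 : (M : ℝ) ^ δ ≤ F) {H : ℕ} (hH1 : 1 ≤ H)
    (hHM : (H : ℝ) ^ (2 ^ (k + 1)) ≤ (M : ℝ) ^ δ) (hF : (H : ℝ) * F * (M : ℝ) ^ (k * δ) ≤ (M : ℝ) ^ (k + 1))
    {φ : ℕ → ℝ → ℝ} (h : Smooth k L F M φ) (c : ℝ) {p : ℕ} (hp : p = 2 ^ (k - 1) * P)
    (A : Finset ((Fin p → Fin M) × (Fin p → Fin M)))
    (hA0 : ∀ q ∈ A, DD (fun j : Fin M => (M : ℝ) + 1 + ((j : ℕ) : ℝ)) q = 0)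
    (hA1 : ∀ q ∈ A, ∀ i, (H : ℝ) ^ 2 / 4 ≤ ww (φ 0) M H c (q.1 i) ∧ (H : ℝ) ^ 2 / 4 ≤ ww (φ 0) M H c (q.2 i)) :
    (A.card : ℝ) * M ≤ 2 * 64 ^ p * (3 * 16 ^ p + (2 * CL k L) ^ P * ((1 + Real.log M) ^ (k * P) / M)) *
      ((M : ℝ) / H) ^ (2 * p) := by
  classical
  have hM0 : (0 : ℝ) < M := by exact_mod_cast (by omega : 0 < M)
  have hM1 : (1 : ℝ) ≤ M := by exact_mod_cast (by omega : 1 ≤ M)
  have hlog : 0 ≤ Real.log M := Real.log_nonneg hM1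
  have hH0 : (0 : ℝ) < H := by exact_mod_cast hH1
  have hCL := CL_pos (k := k) hL
  have hP0 : 0 < P := by
    rcases Nat.eq_zero_or_pos P with h0 | h0
    · rw [h0, Nat.cast_zero, mul_zero] at hPδ; linarith
    · exact h0
  obtain ⟨k', hk'⟩ : ∃ k', k = k' + 1 := ⟨k - 1, by omega⟩
  have h2p : 2 * p = 2 ^ k * P := by
    rw [hp, hk', Nat.add_sub_cancel, pow_succ]; ring
  have hp1 : 1 ≤ p := by
    rw [hp]
    exact Nat.one_le_iff_ne_zero.2 (by positivity)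
  obtain ⟨X, hX⟩ : ∃ X : ℝ, X = CL k L * (1 + Real.log M) ^ k * (2 * (M : ℝ) ^ (-δ)) := ⟨_, rfl⟩
  have hX0 : 0 < X := by rw [hX]; positivity
  obtain ⟨r, hr⟩ : ∃ r : ℝ, r = X ^ ((((2 ^ k : ℕ) : ℝ))⁻¹) := ⟨_, rfl⟩
  have hr0 : 0 < r := by rw [hr]; positivity
  have hrX : r ^ (2 ^ k) = X := by
    rw [hr, Real.rpow_inv_natCast_pow hX0.le (by positivity)]
  -- the sums with nonzero frequency
  have hTT : ∀ β : ℝ, ∀ i < H, ∀ i' < H, i ≠ i' → ‖TT (φ 0) M ((i : ℝ) - i') β‖ ≤ M * r := by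
    intro β i hi i' hi' hne
    have h1 := TT_bound hk hδ0 hδ1 hL hM2 hML hF1 hF h β hi hi' hne
    rw [← hX, ← hrX] at h1
    have h2 := (pow_le_pow_iff_left₀ (by positivity) hr0.le (by positivity)).1 h1
    rw [div_le_iff₀ hM0] at h2
    linarith
  have hSW : ∀ β : ℝ, ‖SW (ww (φ 0) M H c) (fun j : Fin M => (M : ℝ) + 1 + ((j : ℕ) : ℝ)) β‖ ^ (2 * p) ≤
      4 ^ p * ((H : ℝ) ^ (2 * p) * ‖TT (φ 0) M 0 β‖ ^ (2 * p) + ((H : ℝ) ^ 2 * (M * r)) ^ (2 * p)) := by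
    intro β
    have h1 := SW_le (φ 0) M H c β (M * r) (by positivity) (hTT β)
    calc _ ≤ (H * ‖TT (φ 0) M 0 β‖ + H ^ 2 * (M * r)) ^ (2 * p) := pow_le_pow_left₀ (norm_nonneg _) h1 _
      _ ≤ 2 ^ (2 * p - 1) * ((H * ‖TT (φ 0) M 0 β‖) ^ (2 * p) + (H ^ 2 * (M * r)) ^ (2 * p)) :=
          add_pow_le (by positivity) (by positivity) _
      _ ≤ 4 ^ p * ((H * ‖TT (φ 0) M 0 β‖) ^ (2 * p) + (H ^ 2 * (M * r)) ^ (2 * p)) := by
          apply mul_le_mul_of_nonneg_right _ (by positivity)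
          calc (2 : ℝ) ^ (2 * p - 1) ≤ 2 ^ (2 * p) := pow_le_pow_right₀ (by norm_num) (by omega)
            _ = 4 ^ p := by rw [pow_mul]; norm_num
      _ = _ := by rw [mul_pow (H : ℝ) (‖TT (φ 0) M 0 β‖)]
  have hw0 : ∀ j, 0 ≤ ww (φ 0) M H c j := fun j => by unfold ww; positivity
  have hcount := wcount_le (p := p) (ww (φ 0) M H c) (fun j : Fin M => (M : ℝ) + 1 + ((j : ℕ) : ℝ)) hw0 M (by omega)
    (1 / (2 * M)) A hA0
  have hlow : (A.card : ℝ) * ((H : ℝ) ^ 2 / 4) ^ (2 * p) ≤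
      ∑ q ∈ A, (∏ i, ww (φ 0) M H c (q.1 i)) * ∏ i, ww (φ 0) M H c (q.2 i) := by
    rw [← nsmul_eq_mul, ← sum_const]
    apply sum_le_sum
    intro q hq
    have e1 : ((H : ℝ) ^ 2 / 4) ^ p ≤ ∏ i, ww (φ 0) M H c (q.1 i) := by
      calc ((H : ℝ) ^ 2 / 4) ^ p = ∏ _i : Fin p, (H : ℝ) ^ 2 / 4 := by
            rw [prod_const, card_univ, Fintype.card_fin]
        _ ≤ _ := prod_le_prod (fun _ _ => by positivity) fun i _ => (hA1 q hq i).1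
    have e2 : ((H : ℝ) ^ 2 / 4) ^ p ≤ ∏ i, ww (φ 0) M H c (q.2 i) := by
      calc ((H : ℝ) ^ 2 / 4) ^ p = ∏ _i : Fin p, (H : ℝ) ^ 2 / 4 := by
            rw [prod_const, card_univ, Fintype.card_fin]
        _ ≤ _ := prod_le_prod (fun _ _ => by positivity) fun i _ => (hA1 q hq i).2
    calc ((H : ℝ) ^ 2 / 4) ^ (2 * p) = ((H : ℝ) ^ 2 / 4) ^ p * ((H : ℝ) ^ 2 / 4) ^ p := by rw [two_mul, pow_add]
      _ ≤ _ := mul_le_mul e1 e2 (by positivity) (prod_nonneg fun _ _ => hw0 _)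
  have hsum : ∑ i ∈ range M, ‖SW (ww (φ 0) M H c) (fun j : Fin M => (M : ℝ) + 1 + ((j : ℕ) : ℝ))
      (i * (1 / (2 * M)))‖ ^ (2 * p) ≤
      4 ^ p * ((H : ℝ) ^ (2 * p) * (3 * 16 ^ p * (M : ℝ) ^ (2 * p)) + M * ((H : ℝ) ^ 2 * (M * r)) ^ (2 * p)) := by
    refine (sum_le_sum fun i _ => hSW _).trans ?_
    rw [← mul_sum, sum_add_distrib, ← mul_sum, sum_const, card_range, nsmul_eq_mul]
    have := sum_TT (φ 0) M p (by omega) hp1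
    gcongr
  -- the size of `r`
  have hrp : (H : ℝ) ^ (2 * p) * r ^ (2 * p) * M ≤ (2 * CL k L) ^ P * ((1 + Real.log M) ^ (k * P) / M) := by
    have e1 : r ^ (2 * p) = (2 * CL k L) ^ P * (1 + Real.log M) ^ (k * P) * (M : ℝ) ^ (-(δ * P)) := by
      rw [h2p, pow_mul, hrX, hX, mul_pow, mul_pow, mul_pow, ← pow_mul, ← Real.rpow_natCast ((M : ℝ) ^ (-δ)),
        ← Real.rpow_mul hM0.le, mul_pow]
      have e3 : -δ * (P : ℝ) = -(δ * P) := by ring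
      rw [e3]
      ring
    have e2 : (H : ℝ) ^ (2 * p) * (M : ℝ) ^ 2 ≤ (M : ℝ) ^ (δ * P) := by
      have e3 : ((H : ℝ) ^ (2 * p)) ^ 2 ≤ (M : ℝ) ^ (δ * P) := by
        calc ((H : ℝ) ^ (2 * p)) ^ 2 = ((H : ℝ) ^ (2 ^ (k + 1))) ^ P := by
              rw [h2p, ← pow_mul, ← pow_mul, pow_succ]
              congr 1
              ring
          _ ≤ ((M : ℝ) ^ δ) ^ P := pow_le_pow_left₀ (by positivity) hHM _
          _ = _ := by rw [← Real.rpow_natCast, ← Real.rpow_mul hM0.le]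
      have e4 : ((M : ℝ) ^ 2) ^ 2 ≤ (M : ℝ) ^ (δ * P) := by
        calc ((M : ℝ) ^ 2) ^ 2 = (M : ℝ) ^ (4 : ℝ) := by rw [← pow_mul, ← Real.rpow_natCast]; norm_num
          _ ≤ _ := Real.rpow_le_rpow_of_exponent_le hM1 hPδ
      have e5 : ((H : ℝ) ^ (2 * p) * (M : ℝ) ^ 2) ^ 2 ≤ ((M : ℝ) ^ (δ * P)) ^ 2 := by
        rw [mul_pow, sq ((M : ℝ) ^ (δ * P))]
        gcongr
      exact (pow_le_pow_iff_left₀ (by positivity) (by positivity) (by norm_num)).1 e5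
    rw [e1]
    calc (H : ℝ) ^ (2 * p) * ((2 * CL k L) ^ P * (1 + Real.log M) ^ (k * P) * (M : ℝ) ^ (-(δ * P))) * M
        = (2 * CL k L) ^ P * ((1 + Real.log M) ^ (k * P) / M) *
          (((H : ℝ) ^ (2 * p) * (M : ℝ) ^ 2) * (M : ℝ) ^ (-(δ * P))) := by
          field_simp
      _ ≤ (2 * CL k L) ^ P * ((1 + Real.log M) ^ (k * P) / M) *
          ((M : ℝ) ^ (δ * P) * (M : ℝ) ^ (-(δ * P))) := by gcongr
      _ = _ := by rw [← Real.rpow_add hM0, add_neg_cancel, Real.rpow_zero, mul_one]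
  -- the end
  have hH4 : 0 < ((H : ℝ) ^ 2 / 4) ^ (2 * p) := by positivity
  have h1 : (A.card : ℝ) * ((H : ℝ) ^ 2 / 4) ^ (2 * p) ≤ 2 / M * (4 ^ p * ((H : ℝ) ^ (2 * p) *
      (3 * 16 ^ p * (M : ℝ) ^ (2 * p)) + M * ((H : ℝ) ^ 2 * (M * r)) ^ (2 * p))) := by
    refine hlow.trans (hcount.trans ?_)
    gcongr
  have h2 : (A.card : ℝ) * M ≤ 2 * 64 ^ p * (3 * 16 ^ p + (H : ℝ) ^ (2 * p) * r ^ (2 * p) * M) *
      ((M : ℝ) / H) ^ (2 * p) := by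
    have e1 : (A.card : ℝ) ≤ 2 / M * (4 ^ p * ((H : ℝ) ^ (2 * p) *
      (3 * 16 ^ p * (M : ℝ) ^ (2 * p)) + M * ((H : ℝ) ^ 2 * (M * r)) ^ (2 * p))) / ((H : ℝ) ^ 2 / 4) ^ (2 * p) := by
      rw [le_div_iff₀ hH4]
      exact h1
    calc (A.card : ℝ) * M ≤ 2 / M * (4 ^ p * ((H : ℝ) ^ (2 * p) *
      (3 * 16 ^ p * (M : ℝ) ^ (2 * p)) + M * ((H : ℝ) ^ 2 * (M * r)) ^ (2 * p))) / ((H : ℝ) ^ 2 / 4) ^ (2 * p) * M := by
          gcongr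
      _ = 2 * (4 ^ p * 16 ^ p) * (3 * 16 ^ p + (H : ℝ) ^ (2 * p) * r ^ (2 * p) * M) * ((M : ℝ) / H) ^ (2 * p) := by
          have e16 : (16 : ℝ) ^ p = 4 ^ (2 * p) := by rw [pow_mul]; norm_num
          rw [e16]
          have eH : ((H : ℝ) ^ 2) ^ (2 * p) = (H : ℝ) ^ (2 * p) * (H : ℝ) ^ (2 * p) := by
            rw [← mul_pow, sq]
          simp only [div_pow, mul_pow]
          field_simp
          rw [eH]
          ring
      _ = _ := by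
          rw [← mul_pow]
          norm_num
  refine h2.trans ?_
  gcongr

end Pool.Agent.Helper4.SP
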