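import Pool.Agent.Helper4.SP.Energy

/-!
The families `c₀ + κ ⌊f(n)⌋` have small energy: the input for the general theorems on thin families.
-/

set_option autoImplicit false

namespace Pool.Agent.Helper4.SP

open Finset
open Pool.Agent.H469R2.NK (Cq Cq_pos)
open Pool.Agent.TH212.EH (En)

/-- `φ m` is the `m`-th derivative of `φ 0` on `[M, 2 M + 1]`, `m ≤ k + 2`; `M ^ (k + 1) |φ (k + 1)|` is between
`N / log ^ C N` and `N log ^ C N`; `φ (k + 2)` does not change the sign. -/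
structure Phase (k C N M : ℕ) (φ : ℕ → ℝ → ℝ) : Prop where
  der : ∀ m ≤ k + 1, ∀ t ∈ Set.Icc (M : ℝ) (2 * M + 1), HasDerivAt (φ m) (φ (m + 1) t) t
  low : ∀ t ∈ Set.Icc (M : ℝ) (2 * M + 1), (N : ℝ) ≤ (M : ℝ) ^ (k + 1) * |φ (k + 1) t| * Real.log N ^ C
  high : ∀ t ∈ Set.Icc (M : ℝ) (2 * M + 1), (M : ℝ) ^ (k + 1) * |φ (k + 1) t| ≤ N * Real.log N ^ C
  mono : (∀ t ∈ Set.Icc (M : ℝ) (2 * M + 1), φ (k + 2) t ≤ 0) ∨
    (∀ t ∈ Set.Icc (M : ℝ) (2 * M + 1), 0 ≤ φ (k + 2) t)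

lemma Phase.smooth {k C N M : ℕ} {φ : ℕ → ℝ → ℝ} (h : Phase k C N M φ) (hN : (0 : ℝ) < N)
    (hL : 0 < Real.log N) : Smooth k (Real.log N ^ C) N M φ := by
  have hL' : 0 < Real.log N ^ C := by positivity
  have hne : ∀ t ∈ Set.Icc (M : ℝ) (2 * M + 1), φ (k + 1) t ≠ 0 := by
    intro t ht h0
    have := h.low t ht
    rw [h0, abs_zero, mul_zero, zero_mul] at this
    linarith
  have hcont : ContinuousOn (φ (k + 1)) (Set.Icc (M : ℝ) (2 * M + 1)) :=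
    fun t ht => (h.der (k + 1) le_rfl t ht).continuousAt.continuousWithinAt
  have hM : (M : ℝ) ≤ 2 * M + 1 := by
    have : (0 : ℝ) ≤ M := Nat.cast_nonneg _
    linarith
  have hconn : IsPreconnected (φ (k + 1) '' Set.Icc (M : ℝ) (2 * M + 1)) :=
    isPreconnected_Icc.image _ hcont
  have hord := hconn.ordConnected
  have hsign : (∀ t ∈ Set.Icc (M : ℝ) (2 * M + 1), 0 < φ (k + 1) t) ∨
      (∀ t ∈ Set.Icc (M : ℝ) (2 * M + 1), φ (k + 1) t < 0) := by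
    by_contra hcon
    rw [not_or] at hcon
    obtain ⟨h1, h2⟩ := hcon
    push Not at h1 h2
    obtain ⟨s, hs, hs1⟩ := h1
    obtain ⟨t, ht, ht1⟩ := h2
    have h0 : (0 : ℝ) ∈ φ (k + 1) '' Set.Icc (M : ℝ) (2 * M + 1) :=
      hord.out ⟨s, hs, rfl⟩ ⟨t, ht, rfl⟩ ⟨hs1, ht1⟩
    obtain ⟨u, hu, hu1⟩ := h0
    exact hne u hu hu1
  refine ⟨h.der, ?_, h.mono⟩
  rcases hsign with hs | hs
  · left
    intro t ht
    have h1 := h.low t ht
    have h2 := h.high t ht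
    rw [abs_of_pos (hs t ht)] at h1 h2
    refine ⟨?_, ?_⟩
    · rw [div_le_iff₀ hL']; exact h1
    · rw [mul_comm (Real.log N ^ C)]; exact h2
  · right
    intro t ht
    have h1 := h.low t ht
    have h2 := h.high t ht
    rw [abs_of_neg (hs t ht), mul_neg] at h1 h2
    refine ⟨?_, ?_⟩
    · rw [div_le_iff₀ hL']; exact h1
    · rw [mul_comm (Real.log N ^ C)]; exact h2

lemma CL_le (k : ℕ) {L : ℝ} (hL : 1 ≤ L) : CL k L ≤ Cq k * (4 + 2 * 4 ^ k) * L ^ (k + 1) := by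
  unfold CL
  have hC := Cq_pos k
  have h1 : L ≤ L ^ (k + 1) := by
    calc L = L ^ 1 := (pow_one _).symm
      _ ≤ L ^ (k + 1) := pow_le_pow_right₀ hL (by omega)
  have h2 : 4 * L + 2 * L * (4 * L) ^ k = 4 * L + 2 * 4 ^ k * L ^ (k + 1) := by
    rw [mul_pow, pow_succ]; ring
  rw [h2]
  calc Cq k * (4 * L + 2 * 4 ^ k * L ^ (k + 1)) ≤ Cq k * (4 * L ^ (k + 1) + 2 * 4 ^ k * L ^ (k + 1)) := by
        gcongr
    _ = _ := by ring

lemma CE_le (k P : ℕ) : ∃ D : ℝ, 0 < D ∧ ∀ L : ℝ, 1 ≤ L → CE k P L ≤ D * L ^ ((k + 1) * P) := by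
  have hC := Cq_pos k
  obtain ⟨W, hW⟩ : ∃ W : ℝ, W = 2 ^ P * ((12 * ((2 ^ (k - 1) * P : ℕ) : ℝ)) ^ P * 2 + 2) := ⟨_, rfl⟩
  have hW0 : 0 < W := by rw [hW]; positivity
  obtain ⟨V, hV⟩ : ∃ V : ℝ, V = Cq k * (4 + 2 * 4 ^ k) := ⟨_, rfl⟩
  have hV0 : 0 < V := by rw [hV]; positivity
  refine ⟨8 * (1 + V ^ P * W), by positivity, fun L hL => ?_⟩
  unfold CE
  rw [← hW]
  have h1 : CL k L ≤ V * L ^ (k + 1) := by rw [hV]; exact CL_le k hL
  have h0 := CL_pos (k := k) hL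
  have h2 : 1 ≤ L ^ ((k + 1) * P) := one_le_pow₀ hL
  calc 8 * (1 + CL k L ^ P * W) ≤ 8 * (1 + (V * L ^ (k + 1)) ^ P * W) := by gcongr
    _ = 8 * (1 + V ^ P * W * L ^ ((k + 1) * P)) := by rw [mul_pow, ← pow_mul]; ring
    _ ≤ 8 * (L ^ ((k + 1) * P) + V ^ P * W * L ^ ((k + 1) * P)) := by gcongr
    _ = _ := by ring

/-- the energy of a subfamily -/
lemma En_sub (p : ℕ) {ι κ : Type} [Fintype ι] [Fintype κ] (w : κ → ℤ) (g : ι → κ) (hg : Function.Injective g)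
    (v : ι → ℤ) (hv : ∀ i, v i = w (g i)) : En p v ≤ En p w := by
  unfold En
  apply Nat.card_le_card_of_injective (fun q => ⟨(fun i => g (q.1.1 i), fun i => g (q.1.2 i)), by
    have := q.2
    simp only [hv] at this
    exact this⟩)
  intro q q' h
  rw [Subtype.mk.injEq, Prod.mk.injEq] at h
  apply Subtype.ext
  apply Prod.ext
  · funext i
    exact hg (congrFun h.1 i)
  · funext i
    exact hg (congrFun h.2 i)

/-- the input for the general theorems on thin families -/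
lemma hyp (k : ℕ) (hk : 1 ≤ k) (δ : ℝ) (hδ0 : 0 < δ) (hδ1 : δ ≤ 1) (κ : ℤ) (hκ : κ ≠ 0) (B C : ℕ) :
    ∃ p B' C' N₀ : ℕ, B ≤ B' ∧ ∀ N : ℕ, N₀ ≤ N → ∀ M : ℕ, M ≤ N → (N : ℝ) ≤ (M : ℝ) ^ ((k : ℝ) + 1 - δ) →
      ∀ φ : ℕ → ℝ → ℝ, Phase k C N M φ →
      ∀ S : Finset ℕ, S ⊆ Ioc M (2 * M) → (M : ℝ) ≤ S.card * Real.log N ^ C →
      (∀ n ∈ S, |φ 0 (n : ℝ)| ≤ B * N) → ∀ c₀ : ℤ, |c₀| ≤ B * (N : ℤ) →
      (∀ i : {n // n ∈ S}, |c₀ + κ * ⌊φ 0 ((i.1 : ℕ) : ℝ)⌋| ≤ B' * (N : ℤ)) ∧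
      (En p (fun i : {n // n ∈ S} => c₀ + κ * ⌊φ 0 ((i.1 : ℕ) : ℝ)⌋) : ℝ) * N ≤
        Real.log N ^ C' * (Fintype.card {n // n ∈ S} : ℝ) ^ (2 * p) := by
  classical
  have hkR : (1 : ℝ) ≤ k := by exact_mod_cast hk
  have hk0 : (0 : ℝ) < k := by linarith
  obtain ⟨δ', hδ'⟩ : ∃ δ' : ℝ, δ' = δ / k := ⟨_, rfl⟩
  have hδ'0 : 0 < δ' := by rw [hδ']; positivity
  have hδ'1 : δ' ≤ 1 := by
    rw [hδ', div_le_one hk0]; linarith
  have hkδ : (k : ℝ) * δ' = δ := by rw [hδ']; field_simp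
  obtain ⟨P0, hP0⟩ := exists_nat_ge (((k : ℝ) + 1) / δ')
  obtain ⟨P, hP⟩ : ∃ P, P = P0 + 2 := ⟨_, rfl⟩
  have hPδ : (k : ℝ) + 1 ≤ δ' * P := by
    have : ((k : ℝ) + 1) / δ' ≤ P := hP0.trans (by rw [hP]; push_cast; linarith)
    rw [div_le_iff₀ hδ'0] at this
    linarith
  have hP2 : 2 ≤ P := by omega
  obtain ⟨D, hD0, hD⟩ := CE_le k P
  obtain ⟨E1, hE1⟩ := exists_nat_ge (D * 2 ^ (k * P))
  obtain ⟨p, hp⟩ : ∃ p, p = 2 ^ (k - 1) * P := ⟨_, rfl⟩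
  -- large `N`
  have ht1 : Filter.Tendsto (fun N : ℕ => Real.log (N : ℝ)) Filter.atTop Filter.atTop :=
    Real.tendsto_log_atTop.comp tendsto_natCast_atTop_atTop
  have ht2 : ∀ᶠ N : ℕ in Filter.atTop, 4 * Real.log N ^ C ≤ (N : ℝ) ^ (δ' / (k + 1)) := by
    have hs : 0 < δ' / ((k : ℝ) + 1) := by positivity
    have h1 : (fun x : ℝ => Real.log x ^ C) =o[Filter.atTop] fun x => x ^ (δ' / ((k : ℝ) + 1)) := by
      have := isLittleO_log_rpow_rpow_atTop (s := δ' / ((k : ℝ) + 1)) (C : ℝ) hs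
      simpa using this
    have h2 := (h1.bound (c := 1 / 4) (by norm_num))
    have h3 := tendsto_natCast_atTop_atTop (R := ℝ) |>.eventually h2
    filter_upwards [h3, Filter.eventually_ge_atTop 1] with N hN hN1
    have hN1' : (1 : ℝ) ≤ N := by exact_mod_cast hN1
    rw [Real.norm_of_nonneg (pow_nonneg (Real.log_nonneg hN1') _), Real.norm_of_nonneg (by positivity)] at hN
    linarith
  obtain ⟨n1, h1⟩ := (Filter.eventually_atTop.1 (ht1.eventually_ge_atTop ((E1 : ℝ) + 1)))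
  obtain ⟨n2, h2⟩ := Filter.eventually_atTop.1 ht2
  refine ⟨p, B + κ.natAbs * (B + 1), C * ((k + 1) * P) + k * P + C * (2 * p) + 1, n1 + n2 + 2,
    Nat.le_add_right _ _, fun N hN M hMN hNM φ hφ S hS hSc hSB c₀ hc₀ => ?_⟩
  have hL := h1 N (by omega)
  have hR := h2 N (by omega)
  have hN1 : 2 ≤ N := by omega
  have hNR : (2 : ℝ) ≤ N := by exact_mod_cast hN1
  have hN0 : (0 : ℝ) < N := by linarith
  have hsm := hφ.smooth hN0 (Real.log_pos (by linarith))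
  obtain ⟨L, hLe⟩ : ∃ L, L = Real.log (N : ℝ) := ⟨_, rfl⟩
  rw [← hLe] at hL hSc hR hsm ⊢
  have hL1 : 1 ≤ L := by have : (0 : ℝ) ≤ E1 := Nat.cast_nonneg _; linarith
  have hE1L : (E1 : ℝ) ≤ L := by linarith
  have hMpos : 1 ≤ M := by
    by_contra h0
    have h00 : M = 0 := by omega
    rw [h00, Nat.cast_zero, Real.zero_rpow (by linarith)] at hNM
    linarith
  have hM1 : (1 : ℝ) ≤ M := by exact_mod_cast hMpos
  have hM0 : (0 : ℝ) < M := by linarith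
  have hNMk : (N : ℝ) ≤ (M : ℝ) ^ ((k : ℝ) + 1) :=
    hNM.trans (Real.rpow_le_rpow_of_exponent_le hM1 (by linarith))
  have hM2 : 2 ≤ M := by
    by_contra h0
    have h00 : M = 1 := by omega
    rw [h00, Nat.cast_one, Real.one_rpow] at hNMk
    linarith
  have hLC1 : 1 ≤ L ^ C := one_le_pow₀ hL1
  have hML : 4 * L ^ C ≤ (M : ℝ) ^ δ' := by
    refine hR.trans ?_
    calc (N : ℝ) ^ (δ' / (k + 1)) ≤ ((M : ℝ) ^ ((k : ℝ) + 1)) ^ (δ' / (k + 1)) :=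
          Real.rpow_le_rpow hN0.le hNMk (by positivity)
      _ = (M : ℝ) ^ δ' := by
          rw [← Real.rpow_mul hM0.le]
          congr 1
          field_simp
  have hF : (N : ℝ) * (M : ℝ) ^ (k * δ') ≤ (M : ℝ) ^ (k + 1) := by
    rw [hkδ]
    calc (N : ℝ) * (M : ℝ) ^ δ ≤ (M : ℝ) ^ ((k : ℝ) + 1 - δ) * (M : ℝ) ^ δ := by gcongr
      _ = (M : ℝ) ^ (k + 1) := by
          rw [← Real.rpow_add hM0, sub_add_cancel, ← Real.rpow_natCast]
          push_cast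
          rfl
  have hen := energy hk hδ'0 hδ'1 hLC1 hP2 hPδ hM2 hML (by linarith : (1 : ℝ) ≤ N) hF hsm κ c₀ hκ
  rw [← hp] at hen
  constructor
  · rintro ⟨n, hn⟩
    have hb := abs_le.1 (hSB n hn)
    have hfl : |⌊φ 0 (n : ℝ)⌋| ≤ ((B : ℤ) + 1) * (N : ℤ) := by
      rw [abs_le]
      constructor
      · have e1 : (-(((B : ℝ) + 1) * N)) ≤ φ 0 (n : ℝ) := by nlinarith [hb.1]
        have e2 : (-(((B : ℤ) + 1) * (N : ℤ))) ≤ ⌊φ 0 (n : ℝ)⌋ := by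
          rw [Int.le_floor]
          push_cast
          linarith
        exact e2
      · have e1 : (⌊φ 0 (n : ℝ)⌋ : ℝ) ≤ ((B : ℝ) + 1) * N := by
          have := Int.floor_le (φ 0 (n : ℝ))
          nlinarith [hb.2]
        exact_mod_cast e1
    simp only
    calc |c₀ + κ * ⌊φ 0 (n : ℝ)⌋| ≤ |c₀| + |κ * ⌊φ 0 (n : ℝ)⌋| := abs_add_le _ _
      _ = |c₀| + |κ| * |⌊φ 0 (n : ℝ)⌋| := by rw [abs_mul]
      _ ≤ B * N + |κ| * (((B : ℤ) + 1) * (N : ℤ)) := by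
          apply add_le_add hc₀
          exact mul_le_mul_of_nonneg_left hfl (abs_nonneg _)
      _ = _ := by
          push_cast
          ring
  · have hsub : En p (fun i : {n // n ∈ S} => c₀ + κ * ⌊φ 0 ((i.1 : ℕ) : ℝ)⌋) ≤
        En p (fun j : Fin M => c₀ + κ * ⌊φ 0 ((M : ℝ) + 1 + ((j : ℕ) : ℝ))⌋) := by
      have hlt : ∀ i : {n // n ∈ S}, i.1 - (M + 1) < M := by
        intro i
        have := hS i.2
        rw [mem_Ioc] at this
        omega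
      refine En_sub p _ (fun i : {n // n ∈ S} => (⟨i.1 - (M + 1), hlt i⟩ : Fin M)) ?_ _ ?_
      · intro i i' h
        rw [Fin.mk.injEq] at h
        have h3 := hS i.2
        have h4 := hS i'.2
        rw [mem_Ioc] at h3 h4
        apply Subtype.ext
        omega
      · intro i
        have h3 := hS i.2
        rw [mem_Ioc] at h3
        have e2 : M + 1 + (i.1 - (M + 1)) = i.1 := by omega
        have e3 : (M : ℝ) + 1 + ((i.1 - (M + 1) : ℕ) : ℝ) = ((i.1 : ℕ) : ℝ) := by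
          exact_mod_cast congrArg (Nat.cast (R := ℝ)) e2
        simp only [e3]
    have hlogM : Real.log M ≤ L := by
      rw [hLe]
      apply Real.log_le_log hM0
      exact_mod_cast hMN
    have hlogM0 : 0 ≤ Real.log M := Real.log_nonneg hM1
    rw [Fintype.card_coe]
    have hsubR : (En p (fun i : {n // n ∈ S} => c₀ + κ * ⌊φ 0 ((i.1 : ℕ) : ℝ)⌋) : ℝ) ≤
        En p (fun j : Fin M => c₀ + κ * ⌊φ 0 ((M : ℝ) + 1 + ((j : ℕ) : ℝ))⌋) := by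
      exact_mod_cast hsub
    have hCE := hD (L ^ C) hLC1
    calc (En p (fun i : {n // n ∈ S} => c₀ + κ * ⌊φ 0 ((i.1 : ℕ) : ℝ)⌋) : ℝ) * N ≤
        (En p (fun j : Fin M => c₀ + κ * ⌊φ 0 ((M : ℝ) + 1 + ((j : ℕ) : ℝ))⌋)) * N := by
          gcongr
      _ ≤ CE k P (L ^ C) * (1 + Real.log M) ^ (k * P) * (M : ℝ) ^ (2 * p) := hen
      _ ≤ (D * (L ^ C) ^ ((k + 1) * P)) * (2 * L) ^ (k * P) * (S.card * L ^ C) ^ (2 * p) := by
          have e3 : 1 + Real.log M ≤ 2 * L := by linarith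
          gcongr
      _ = (D * 2 ^ (k * P)) * (L ^ (C * ((k + 1) * P) + k * P + C * (2 * p)) * (S.card : ℝ) ^ (2 * p)) := by
          rw [mul_pow, mul_pow, ← pow_mul, ← pow_mul, pow_add, pow_add]
          ring
      _ ≤ L * (L ^ (C * ((k + 1) * P) + k * P + C * (2 * p)) * (S.card : ℝ) ^ (2 * p)) := by
          apply mul_le_mul_of_nonneg_right (hE1.trans hE1L) (by positivity)
      _ = _ := by
          rw [pow_succ L]
          ring

end Pool.Agent.Helper4.SP
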