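import Pool.Agent.Helper4.SP.FracN

/-!
The energies of the families of smooth values and of short fractional parts, up to constants: final form.
-/

set_option autoImplicit false

namespace Pool.Agent.Helper4.SP

open Finset
open Pool.Agent.H469R2.NK (Cq Cq_pos)
open Pool.Agent.TH212.EH (En)
open Pool.Agent.Helper3K9.PS (DD)

/-- `φ m` is the `m`-th derivative of `φ 0` on `[M, 2 M + 1]`, `m ≤ k + 2`; `M ^ (k + 1) |φ (k + 1)|` is between
`F / L` and `F L`; `φ (k + 2)` does not change the sign. -/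
structure PhaseC (k : ℕ) (L F : ℝ) (M : ℕ) (φ : ℕ → ℝ → ℝ) : Prop where
  der : ∀ m ≤ k + 1, ∀ t ∈ Set.Icc (M : ℝ) (2 * M + 1), HasDerivAt (φ m) (φ (m + 1) t) t
  low : ∀ t ∈ Set.Icc (M : ℝ) (2 * M + 1), F ≤ (M : ℝ) ^ (k + 1) * |φ (k + 1) t| * L
  high : ∀ t ∈ Set.Icc (M : ℝ) (2 * M + 1), (M : ℝ) ^ (k + 1) * |φ (k + 1) t| ≤ F * L
  mono : (∀ t ∈ Set.Icc (M : ℝ) (2 * M + 1), φ (k + 2) t ≤ 0) ∨
    (∀ t ∈ Set.Icc (M : ℝ) (2 * M + 1), 0 ≤ φ (k + 2) t)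

lemma PhaseC.smooth {k M : ℕ} {F L : ℝ} {φ : ℕ → ℝ → ℝ} (h : PhaseC k L F M φ) (hF : 0 < F)
    (hL : 0 < L) : Smooth k L F M φ := by
  have hne : ∀ t ∈ Set.Icc (M : ℝ) (2 * M + 1), φ (k + 1) t ≠ 0 := by
    intro t ht h0
    have := h.low t ht
    rw [h0, abs_zero, mul_zero, zero_mul] at this
    linarith
  have hcont : ContinuousOn (φ (k + 1)) (Set.Icc (M : ℝ) (2 * M + 1)) :=
    fun t ht => (h.der (k + 1) le_rfl t ht).continuousAt.continuousWithinAt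
  have hord := (isPreconnected_Icc.image _ hcont).ordConnected
  have hsign : (∀ t ∈ Set.Icc (M : ℝ) (2 * M + 1), 0 < φ (k + 1) t) ∨
      (∀ t ∈ Set.Icc (M : ℝ) (2 * M + 1), φ (k + 1) t < 0) := by
    by_contra hcon
    rw [not_or] at hcon
    obtain ⟨h1, h2⟩ := hcon
    push Not at h1 h2
    obtain ⟨s, hs, hs1⟩ := h1
    obtain ⟨t, ht, ht1⟩ := h2
    have h0 : (0 : ℝ) ∈ φ (k + 1) '' Set.Icc (M : ℝ) (2 * M + 1) :=
      hord.out ⟨s, hs, rfl⟩ ⟨t, ht, rfl⟩ ⟨hs1, ht1⟩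
    obtain ⟨u, hu, hu1⟩ := h0
    exact hne u hu hu1
  refine ⟨h.der, ?_, h.mono⟩
  rcases hsign with hs | hs
  · left
    intro t ht
    have h1 := h.low t ht
    have h2 := h.high t ht
    rw [abs_of_pos (hs t ht)] at h1 h2
    refine ⟨?_, ?_⟩
    · rw [div_le_iff₀ hL]; exact h1
    · rw [mul_comm L]; exact h2
  · right
    intro t ht
    have h1 := h.low t ht
    have h2 := h.high t ht
    rw [abs_of_neg (hs t ht), mul_neg] at h1 h2
    refine ⟨?_, ?_⟩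
    · rw [div_le_iff₀ hL]; exact h1
    · rw [mul_comm L]; exact h2

/-- the energy of the values -/
theorem valE (k : ℕ) (hk : 1 ≤ k) (δ : ℝ) (hδ0 : 0 < δ) (hδ1 : δ ≤ 1) (C : ℝ) (hC : 1 ≤ C) :
    ∃ (p : ℕ) (D : ℝ) (M₀ : ℕ), 0 < D ∧ ∀ M : ℕ, M₀ ≤ M → ∀ F : ℝ, 1 ≤ F → F ≤ (M : ℝ) ^ ((k : ℝ) + 1 - δ) →
      ∀ φ : ℕ → ℝ → ℝ, PhaseC k C F M φ → ∀ S : Finset ℕ, S ⊆ Ioc M (2 * M) → (M : ℝ) ≤ C * S.card →
      ∀ κ c₀ : ℤ, κ ≠ 0 →
      (En p (fun i : {n // n ∈ S} => c₀ + κ * ⌊φ 0 ((i.1 : ℕ) : ℝ)⌋) : ℝ) * F ≤ D * (S.card : ℝ) ^ (2 * p) := by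
  classical
  have hkR : (1 : ℝ) ≤ k := by exact_mod_cast hk
  have hk0 : (0 : ℝ) < k := by linarith
  obtain ⟨δ', hδ'⟩ : ∃ δ' : ℝ, δ' = δ / k := ⟨_, rfl⟩
  have hδ'0 : 0 < δ' := by rw [hδ']; positivity
  have hδ'1 : δ' ≤ 1 := by
    rw [hδ', div_le_one hk0]; linarith
  have hkδ : (k : ℝ) * δ' = δ := by rw [hδ']; field_simp
  obtain ⟨P0, hP0⟩ := exists_nat_ge (((k : ℝ) + 1) / δ')
  obtain ⟨P, hP⟩ : ∃ P, P = P0 + 2 := ⟨_, rfl⟩
  have hPδ : (k : ℝ) + 1 ≤ δ' * P := by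
    have : ((k : ℝ) + 1) / δ' ≤ P := hP0.trans (by rw [hP]; push_cast; linarith)
    rw [div_le_iff₀ hδ'0] at this
    linarith
  have hP2 : 2 ≤ P := by omega
  obtain ⟨p, hp⟩ : ∃ p, p = 2 ^ k * P := ⟨_, rfl⟩
  have hCE : 0 < CEN k P C := by
    unfold CEN
    have := one_le_CN k hC
    have h2 : 0 < CN k C := by linarith
    positivity
  -- large `M`
  have ht2 : Filter.Tendsto (fun M : ℕ => (M : ℝ) ^ δ') Filter.atTop Filter.atTop :=
    (tendsto_rpow_atTop hδ'0).comp tendsto_natCast_atTop_atTop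
  obtain ⟨n1, h1⟩ := (Filter.eventually_atTop.1 (ht2.eventually_ge_atTop (4 * C)))
  refine ⟨p, CEN k P C * C ^ (2 * p), n1 + 2, by positivity, fun M hM F hF1 hF2 φ hφ S hS hSc κ c₀ hκ => ?_⟩
  have hML := h1 M (by omega)
  have hM2 : 2 ≤ M := by omega
  have hM0 : (0 : ℝ) < M := by exact_mod_cast (by omega : 0 < M)
  have hsm := hφ.smooth (by linarith) (by linarith)
  have hF : F * (M : ℝ) ^ (k * δ') ≤ (M : ℝ) ^ (k + 1) := by
    rw [hkδ]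
    calc F * (M : ℝ) ^ δ ≤ (M : ℝ) ^ ((k : ℝ) + 1 - δ) * (M : ℝ) ^ δ := by gcongr
      _ = (M : ℝ) ^ (k + 1) := by
          rw [← Real.rpow_add hM0, sub_add_cancel, ← Real.rpow_natCast]
          push_cast
          rfl
  have hen := energyN hk hδ'0 hδ'1 hC hP2 hPδ hM2 hML hF1 hF hsm κ c₀ hκ
  rw [← hp] at hen
  have hsub : En p (fun i : {n // n ∈ S} => c₀ + κ * ⌊φ 0 ((i.1 : ℕ) : ℝ)⌋) ≤
      En p (fun j : Fin M => c₀ + κ * ⌊φ 0 ((M : ℝ) + 1 + ((j : ℕ) : ℝ))⌋) := by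
    have hlt : ∀ i : {n // n ∈ S}, i.1 - (M + 1) < M := by
      intro i
      have := hS i.2
      rw [mem_Ioc] at this
      omega
    refine En_sub p _ (fun i : {n // n ∈ S} => (⟨i.1 - (M + 1), hlt i⟩ : Fin M)) ?_ _ ?_
    · intro i i' h
      rw [Fin.mk.injEq] at h
      have h3 := hS i.2
      have h4 := hS i'.2
      rw [mem_Ioc] at h3 h4
      apply Subtype.ext
      omega
    · intro i
      have h3 := hS i.2
      rw [mem_Ioc] at h3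
      have e2 : M + 1 + (i.1 - (M + 1)) = i.1 := by omega
      have e3 : (M : ℝ) + 1 + ((i.1 - (M + 1) : ℕ) : ℝ) = ((i.1 : ℕ) : ℝ) := by
        exact_mod_cast congrArg (Nat.cast (R := ℝ)) e2
      simp only [e3]
  have hsubR : (En p (fun i : {n // n ∈ S} => c₀ + κ * ⌊φ 0 ((i.1 : ℕ) : ℝ)⌋) : ℝ) ≤
      En p (fun j : Fin M => c₀ + κ * ⌊φ 0 ((M : ℝ) + 1 + ((j : ℕ) : ℝ))⌋) := by
    exact_mod_cast hsub
  calc (En p (fun i : {n // n ∈ S} => c₀ + κ * ⌊φ 0 ((i.1 : ℕ) : ℝ)⌋) : ℝ) * F ≤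
      (En p (fun j : Fin M => c₀ + κ * ⌊φ 0 ((M : ℝ) + 1 + ((j : ℕ) : ℝ))⌋)) * F := by
        gcongr
    _ ≤ CEN k P C * (M : ℝ) ^ (2 * p) := hen
    _ ≤ CEN k P C * (C * S.card) ^ (2 * p) := by gcongr
    _ = _ := by rw [mul_pow]; ring

/-- the energy of the integers with a short fractional part -/
theorem fracE (k : ℕ) (hk : 1 ≤ k) (δ : ℝ) (hδ0 : 0 < δ) (hδ1 : δ ≤ 1) (C : ℝ) (hC : 1 ≤ C) :
    ∃ (p : ℕ) (D : ℝ) (M₀ : ℕ), 0 < D ∧ ∀ N : ℕ, M₀ ≤ N → ∀ F : ℝ, (N : ℝ) ^ δ ≤ F →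
      F ≤ (N : ℝ) ^ ((k : ℝ) + 1 - δ) →
      ∀ φ : ℕ → ℝ → ℝ, PhaseC k C F N φ → ∀ c lam : ℝ, (N : ℝ) ^ (-(δ / (k * 2 ^ (k + 2)))) ≤ lam →
      ∀ S : Finset ℕ, S ⊆ Ioc N (2 * N) → (∀ n ∈ S, Int.fract (φ 0 (n : ℝ) - c) ≤ lam) →
      lam * N ≤ C * S.card → ∀ κ c₀ : ℤ, κ ≠ 0 →
      (En p (fun i : {n // n ∈ S} => c₀ + κ * ((i.1 : ℕ) : ℤ)) : ℝ) * N ≤ D * (S.card : ℝ) ^ (2 * p) := by
  classical
  have hkR : (1 : ℝ) ≤ k := by exact_mod_cast hk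
  have hk0 : (0 : ℝ) < k := by linarith
  obtain ⟨δ', hδ'⟩ : ∃ δ' : ℝ, δ' = δ / (2 * k) := ⟨_, rfl⟩
  have hδ'0 : 0 < δ' := by rw [hδ']; positivity
  have hδ'δ : δ' ≤ δ / 2 := by
    rw [hδ']
    apply div_le_div_of_nonneg_left hδ0.le (by norm_num)
    linarith
  have hδ'1 : δ' ≤ 1 := by linarith
  have hkδ : (k : ℝ) * δ' = δ / 2 := by rw [hδ']; field_simp
  obtain ⟨P, hP⟩ := exists_nat_ge (4 / δ')
  have hPδ : 4 ≤ δ' * P := by
    rw [div_le_iff₀ hδ'0] at hP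
    linarith
  obtain ⟨p, hp⟩ : ∃ p, p = 2 ^ (k - 1) * P := ⟨_, rfl⟩
  -- large `N`
  have ht2 : Filter.Tendsto (fun M : ℕ => (M : ℝ) ^ δ') Filter.atTop Filter.atTop :=
    (tendsto_rpow_atTop hδ'0).comp tendsto_natCast_atTop_atTop
  have ht3 : ∀ᶠ N : ℕ in Filter.atTop, (1 + Real.log N) ^ (k * P) / N ≤ 2 ^ (k * P) := by
    have h1 : (fun x : ℝ => Real.log x ^ (k * P)) =o[Filter.atTop] fun x => x ^ (1 : ℝ) := by
      have := isLittleO_log_rpow_rpow_atTop (s := 1) ((k * P : ℕ) : ℝ) one_pos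
      simpa only [Real.rpow_natCast] using this
    have h2 := (h1.bound (c := 1) one_pos)
    have h3 := tendsto_natCast_atTop_atTop (R := ℝ) |>.eventually h2
    have ht1 : Filter.Tendsto (fun N : ℕ => Real.log (N : ℝ)) Filter.atTop Filter.atTop :=
      Real.tendsto_log_atTop.comp tendsto_natCast_atTop_atTop
    filter_upwards [h3, Filter.eventually_ge_atTop 1, ht1.eventually_ge_atTop 1] with N hN hN1 hN2
    have hN1' : (1 : ℝ) ≤ N := by exact_mod_cast hN1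
    rw [Real.norm_of_nonneg (pow_nonneg (Real.log_nonneg hN1') _), Real.norm_of_nonneg (by positivity),
      Real.rpow_one, one_mul] at hN
    rw [div_le_iff₀ (by linarith)]
    calc (1 + Real.log N) ^ (k * P) ≤ (2 * Real.log N) ^ (k * P) := by
          apply pow_le_pow_left₀ (by linarith)
          linarith
      _ = 2 ^ (k * P) * Real.log N ^ (k * P) := by rw [mul_pow]
      _ ≤ _ := by gcongr
  obtain ⟨n1, h1⟩ := (Filter.eventually_atTop.1 (ht2.eventually_ge_atTop (4 * C)))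
  obtain ⟨n2, h2⟩ := Filter.eventually_atTop.1 ht3
  have hCL0 := CL_pos (k := k) hC
  refine ⟨p, 2 * 64 ^ p * (3 * 16 ^ p + (2 * CL k C) ^ P * 2 ^ (k * P)) * (6 * C) ^ (2 * p), n1 + n2 + 2,
    by positivity, fun N hN F hF1 hF2 φ hφ c lam hlam S hS hSI hSc κ c₀ hκ => ?_⟩
  have hR := h1 N (by omega)
  have hlogN := h2 N (by omega)
  have hN1 : 2 ≤ N := by omega
  have hNR : (2 : ℝ) ≤ N := by exact_mod_cast hN1
  have hN0 : (0 : ℝ) < N := by linarith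
  have hN11 : (1 : ℝ) ≤ N := by linarith
  have hF0 : 0 < F := lt_of_lt_of_le (by positivity) hF1
  have hsm := hφ.smooth hF0 (by linarith)
  have hF1' : (N : ℝ) ^ δ' ≤ F := (Real.rpow_le_rpow_of_exponent_le hN11 (by linarith)).trans hF1
  have hlam0 : 0 < lam := lt_of_lt_of_le (by positivity) hlam
  -- the length
  obtain ⟨H, hHe⟩ : ∃ H : ℕ, H = max 1 ⌊1 / (3 * lam)⌋₊ := ⟨_, rfl⟩
  have hH1 : 1 ≤ H := by rw [hHe]; exact le_max_left _ _
  have hH0 : (0 : ℝ) < H := by exact_mod_cast hH1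
  have hl : H = 1 ∨ 3 * H * lam ≤ 1 := by
    rcases le_total 1 ⌊1 / (3 * lam)⌋₊ with h3 | h3
    · right
      rw [hHe, max_eq_right h3]
      have h4 := Nat.floor_le (by positivity : 0 ≤ 1 / (3 * lam))
      rw [le_div_iff₀ (by positivity)] at h4
      linarith
    · left
      rw [hHe, max_eq_left h3]
  have hHlow : 1 / H ≤ 6 * lam := by
    rw [div_le_iff₀ hH0]
    have h4 := Nat.lt_floor_add_one (1 / (3 * lam))
    have h5 : (⌊1 / (3 * lam)⌋₊ : ℝ) ≤ H := by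
      rw [hHe]; exact_mod_cast le_max_right _ _
    have h6 : (1 : ℝ) ≤ H := by exact_mod_cast hH1
    have h7 : 1 / (3 * lam) ≤ 2 * H := by linarith
    rw [div_le_iff₀ (by positivity)] at h7
    linarith
  have hHup : (H : ℝ) ≤ (N : ℝ) ^ (δ / (k * 2 ^ (k + 2))) := by
    rcases le_total 1 ⌊1 / (3 * lam)⌋₊ with h3 | h3
    · rw [hHe, max_eq_right h3]
      have h4 := Nat.floor_le (by positivity : 0 ≤ 1 / (3 * lam))
      refine h4.trans ?_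
      rw [Real.rpow_neg hN0.le] at hlam
      have h5 : 0 < (N : ℝ) ^ (δ / (k * 2 ^ (k + 2))) := by positivity
      rw [inv_le_iff_one_le_mul₀ h5] at hlam
      rw [div_le_iff₀ (by positivity)]
      nlinarith
    · rw [hHe, max_eq_left h3, Nat.cast_one]
      exact Real.one_le_rpow hN11 (by positivity)
  have hHM : (H : ℝ) ^ (2 ^ (k + 1)) ≤ (N : ℝ) ^ δ' := by
    calc (H : ℝ) ^ (2 ^ (k + 1)) ≤ ((N : ℝ) ^ (δ / (k * 2 ^ (k + 2)))) ^ (2 ^ (k + 1)) :=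
          pow_le_pow_left₀ hH0.le hHup _
      _ = (N : ℝ) ^ δ' := by
          rw [← Real.rpow_natCast, ← Real.rpow_mul hN0.le]
          congr 1
          rw [hδ']
          push_cast
          rw [pow_succ (2 : ℝ) (k + 1)]
          field_simp
  have hF : (H : ℝ) * F * (N : ℝ) ^ (k * δ') ≤ (N : ℝ) ^ (k + 1) := by
    rw [hkδ]
    have h3 : (H : ℝ) ≤ (N : ℝ) ^ (δ / 2) := by
      refine hHup.trans (Real.rpow_le_rpow_of_exponent_le hN11 ?_)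
      apply div_le_div_of_nonneg_left hδ0.le (by norm_num)
      have h4 : (2 : ℝ) ≤ 2 ^ (k + 2) := by
        calc (2 : ℝ) = 2 ^ 1 := by norm_num
          _ ≤ 2 ^ (k + 2) := pow_le_pow_right₀ (by norm_num) (by omega)
      nlinarith
    calc (H : ℝ) * F * (N : ℝ) ^ (δ / 2) ≤ (N : ℝ) ^ (δ / 2) * (N : ℝ) ^ ((k : ℝ) + 1 - δ) * (N : ℝ) ^ (δ / 2) := by
          gcongr
      _ = (N : ℝ) ^ (k + 1) := by
          rw [← Real.rpow_add hN0, ← Real.rpow_add hN0, ← Real.rpow_natCast]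
          congr 1
          push_cast
          ring
  -- the set of solutions
  obtain ⟨A, hA⟩ : ∃ A : Finset ((Fin p → Fin N) × (Fin p → Fin N)),
      A = univ.filter (fun q => DD (fun j : Fin N => (N : ℝ) + 1 + ((j : ℕ) : ℝ)) q = 0 ∧
        ∀ i, N + 1 + (q.1 i : ℕ) ∈ S ∧ N + 1 + (q.2 i : ℕ) ∈ S) := ⟨_, rfl⟩
  have hlt : ∀ i : {n // n ∈ S}, i.1 - (N + 1) < N := by
    intro i
    have := hS i.2
    rw [mem_Ioc] at this
    omega
  have he2 : ∀ i : {n // n ∈ S}, N + 1 + (i.1 - (N + 1)) = i.1 := by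
    intro i
    have := hS i.2
    rw [mem_Ioc] at this
    omega
  have he3 : ∀ i : {n // n ∈ S}, (N : ℝ) + 1 + ((i.1 - (N + 1) : ℕ) : ℝ) = ((i.1 : ℕ) : ℝ) := by
    intro i
    exact_mod_cast congrArg (Nat.cast (R := ℝ)) (he2 i)
  have hsub : En p (fun i : {n // n ∈ S} => c₀ + κ * ((i.1 : ℕ) : ℤ)) ≤ A.card := by
    refine En_le_card _ (fun i : {n // n ∈ S} => (⟨i.1 - (N + 1), hlt i⟩ : Fin N)) ?_ A ?_
    · intro i i' h
      rw [Fin.mk.injEq] at h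
      have h3 := he2 i
      have h4 := he2 i'
      apply Subtype.ext
      omega
    · intro q hq
      rw [hA, mem_filter]
      refine ⟨mem_univ _, ?_, fun i => ⟨?_, ?_⟩⟩
      · rw [sum_add_distrib, sum_add_distrib, ← mul_sum, ← mul_sum] at hq
        have h3 := mul_left_cancel₀ hκ (add_left_cancel hq)
        unfold DD
        simp only [he3]
        rw [sub_eq_zero]
        exact_mod_cast h3
      · simp only [he2]
        exact (q.1 i).2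
      · simp only [he2]
        exact (q.2 i).2
  have hw : ∀ j : Fin N, N + 1 + (j : ℕ) ∈ S → (H : ℝ) ^ 2 / 4 ≤ ww (φ 0) N H (c + lam / 2) j := by
    intro j hj
    have h3 := near hH1 (hSI _ hj) hl
    unfold ww
    have h4 : ((N + 1 + (j : ℕ) : ℕ) : ℝ) = (N : ℝ) + 1 + ((j : ℕ) : ℝ) := by push_cast; ring
    rw [h4] at h3
    calc (H : ℝ) ^ 2 / 4 = ((H : ℝ) / 2) ^ 2 := by ring
      _ ≤ _ := pow_le_pow_left₀ (by positivity) h3 _
  have hen := frac_energyN hk hδ'0 hδ'1 hC hPδ hN1 hR hF1' hH1 hHM hF hsm (c + lam / 2) hp A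
    (fun q hq => by
      rw [hA, mem_filter] at hq
      exact hq.2.1)
    (fun q hq i => by
      rw [hA, mem_filter] at hq
      exact ⟨hw _ (hq.2.2 i).1, hw _ (hq.2.2 i).2⟩)
  have hsubR : (En p (fun i : {n // n ∈ S} => c₀ + κ * ((i.1 : ℕ) : ℤ)) : ℝ) ≤ A.card := by exact_mod_cast hsub
  have hNH : (N : ℝ) / H ≤ 6 * C * S.card := by
    calc (N : ℝ) / H = N * (1 / H) := by ring
      _ ≤ N * (6 * lam) := by gcongr
      _ = 6 * (lam * N) := by ring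
      _ ≤ 6 * (C * S.card) := by gcongr
      _ = _ := by ring
  calc (En p (fun i : {n // n ∈ S} => c₀ + κ * ((i.1 : ℕ) : ℤ)) : ℝ) * N ≤ A.card * N := by gcongr
    _ ≤ 2 * 64 ^ p * (3 * 16 ^ p + (2 * CL k C) ^ P * ((1 + Real.log N) ^ (k * P) / N)) *
        ((N : ℝ) / H) ^ (2 * p) := hen
    _ ≤ 2 * 64 ^ p * (3 * 16 ^ p + (2 * CL k C) ^ P * 2 ^ (k * P)) * (6 * C * S.card) ^ (2 * p) := by gcongr
    _ = _ := by rw [mul_pow (6 * C)]; ring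

end Pool.Agent.Helper4.SP
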